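import Pool.Agent.P.MP_f04817_lc.SwA1
import Pool.Agent.P.MP_f04817_lc.Ed.TENC

/-! If the word problem is EDT0L then every loop has a sweep with bounded parameters. -/

set_option autoImplicit false

namespace Pool.Agent.P.MP_f04817_lc

open SwA

theorem SwA.el_of_sys {A G : Type} [Group G] {π : A → G} (h : Ed.Sys {1} π) :
    Finite A ∧ EL fun w : List A => (w.map π).prod = 1 := by
  obtain ⟨V, hV, ι, ω, H, hι, hH, hL⟩ := h
  refine ⟨Finite.of_injective ι hι, V, hV, ι, ω, (fun h u => u.flatMap h) '' H, hι, hH.image _,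
    ?_, fun w => (hL w).trans ⟨?_, ?_⟩⟩
  · rintro _ ⟨h, -, rfl⟩
    exact ⟨rfl, fun a b => List.flatMap_append⟩
  · rintro ⟨ts, h1, h2⟩
    refine ⟨(ts.map fun h u => u.flatMap h).reverse, fun h hh => ?_, ?_⟩
    · obtain ⟨t, ht, rfl⟩ := List.mem_map.1 (List.mem_reverse.1 hh)
      exact ⟨t, h1 t ht, rfl⟩
    · rw [← h2, app, List.foldr_reverse, List.foldl_map, Ed.run]
  · rintro ⟨l, h1, h2⟩
    rw [← h2]
    clear h2
    induction l with
    | nil => exact ⟨[], by simp, rfl⟩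
    | cons h l ih =>
      obtain ⟨ts, k1, k2⟩ := ih fun g hg => h1 g (List.mem_cons_of_mem _ hg)
      obtain ⟨t, ht, rfl⟩ := h1 h List.mem_cons_self
      refine ⟨ts ++ [t], fun g hg => ?_, ?_⟩
      · rcases List.mem_append.1 hg with hg | hg
        · exact k1 g hg
        · rwa [List.mem_singleton.1 hg]
      · rw [Ed.run, List.foldl_append]
        exact congrArg (List.flatMap t) k2

theorem sweepA (A G : Type) [Group G] (π : A → G) (a b : A) (hab : a ≠ b) (hπ : π a * π b = 1)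
    (h : Ed.Sys {1} π) : ∃ (k K : ℕ) (Y : Finset G), ∀ (z : ℕ → G) (n : ℕ),
      Loop (insert 1 (Set.range π)) z n → Nonempty (Sweep k K Y z n) := by
  obtain ⟨_, hE⟩ := el_of_sys h
  have : Nonempty A := ⟨a⟩
  let S0 : Set G := insert (π a ^ 2) (insert 1 (Set.range π))
  have hS0 : (S0 ∪ S0⁻¹).Finite :=
    have h0 : S0.Finite := ((Set.finite_range π).insert _).insert _
    h0.union h0.inv
  have hm : ∀ g ∈ S0, g ∈ hS0.toFinset := fun g hg => hS0.mem_toFinset.2 (Or.inl hg)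
  obtain ⟨k, K, Y, hY⟩ := sweep_of_marked π hS0.toFinset (hm 1 (Or.inr (Or.inl rfl)))
    (fun g hg => hS0.mem_toFinset.2 ((hS0.mem_toFinset.1 hg).elim
      (fun c => Or.inr (by simpa only [Set.mem_inv, inv_inv] using c)) Or.inl)) hE
  refine ⟨k, K, Y, fun z n hz => ?_⟩
  have hx : ∀ i, ∃ o : Option A, i < n → Ed.opt π o = (z i)⁻¹ * z (i + 1) := fun i => by
    by_cases hi : i < n
    · rcases hz.2.2 i hi with e | ⟨y, e⟩
      · exact ⟨none, fun _ => e.symm⟩
      · exact ⟨some y, fun _ => e⟩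
    · exact ⟨none, fun c => absurd c hi⟩
  choose x hx using hx
  have hq : ∀ i ≤ n, Ed.Q (Ed.opt π) x i = z i := fun i hi => by
    induction i with
    | zero => exact hz.1.symm
    | succ i ih => rw [Ed.Q_succ, ih (by omega), hx i hi, mul_inv_cancel_left]
  obtain ⟨pos, ρ, e, W, h1, h2, h3, h4, h5, h6, h7⟩ := Ed.enc_symm π a b hab hπ x
  have hρ : Monotone ρ := monotone_nat_of_le_succ h2
  refine hY z n ⟨hz.1, hz.2.1, fun i hi => hm _ (Or.inr (hz.2.2 i hi))⟩ W (pos n) (Ed.Q π W) ρ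
    ⟨rfl, fun _ => rfl, ?_, hρ, (h4 n).1, h1, h3, fun y hy => hm _ ?_, h7⟩
  · rw [h6, (h4 n).1, (h4 n).2, hq n le_rfl, hz.2.1]
    simp
  · rw [h6, hq _ ((hρ hy).trans (h4 n).1.le), inv_mul_cancel_left]
    rcases (by have := h5 y; omega : e y = 0 ∨ e y = 1 ∨ e y = 2) with c | c | c <;> rw [c]
    · exact Or.inr (Or.inl (pow_zero _))
    · exact Or.inr (Or.inr ⟨a, (pow_one _).symm⟩)
    · exact Or.inl rfl

end Pool.Agent.P.MP_f04817_lc
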