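import Pool.Agent.P.MP_f04817_lc.Sw

/-! Sweeps: arc ends, windows and the induction over the levels. -/

set_option autoImplicit false

namespace Pool.Agent.P.MP_f04817_lc

open scoped Classical

/-- the index of the period that contains the edge below the vertex `x` -/
def nd (M x : ℕ) : ℕ := (x - 1) / M

theorem nd_eq {M x u : ℕ} (h1 : u * M < x) (h2 : x ≤ (u + 1) * M) : nd M x = u :=
  Nat.div_eq_of_lt_le (by omega) (by omega)

theorem card_le_of_img {U E : Finset ℕ} (f : ℕ → ℕ) (h : ∀ u ∈ U, ∃ x ∈ E, f x = u) :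
    U.card ≤ E.card :=
  (Finset.card_le_card fun u hu => Finset.mem_image.mpr (h u hu)).trans Finset.card_image_le

theorem mod_lt_of_dvd {M c e L : ℕ} (hc : M ∣ c) (h1 : c ≤ e) (h2 : e < c + L) : e % M < L := by
  obtain ⟨q, rfl⟩ := hc
  obtain ⟨o, rfl⟩ := Nat.exists_eq_add_of_le h1
  rw [Nat.mul_add_mod]
  exact (Nat.mod_le _ _).trans_lt (by omega)

theorem mod_lt_mono {M M' e L : ℕ} (hM : M' ∣ M) (h : e % M < L) : e % M' < L := by
  rw [← Nat.mod_mod_of_dvd e hM]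
  exact (Nat.mod_le _ _).trans_lt h

namespace Sweep

variable {G : Type} [Group G] {k K : ℕ} {Y : Finset G} {z : ℕ → G} {n : ℕ} (W : Sweep k K Y z n)

/-- the edge `e` is covered at time `t` -/
def c (t e : ℕ) : Prop := cov (W.st t) e

theorem c_mono {t t' e : ℕ} (h : t ≤ t') (h' : t' ≤ W.T) (hc : W.c t e) : W.c t' e := by
  induction t', h using Nat.le_induction with
  | base => exact hc
  | succ s _ ih => exact W.mono s (by omega) e (ih (by omega))

theorem c_lt {t e : ℕ} (ht : t ≤ W.T) (hc : W.c t e) : e < n := by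
  obtain ⟨i, _, h⟩ := hc
  exact h.trans_le (W.le t ht i).2

/-- the ends of the arcs at time `t` -/
def ends (t : ℕ) : Finset ℕ :=
  (Finset.univ.image fun i => (W.st t i).1) ∪ Finset.univ.image fun i => (W.st t i).2.1

theorem card_ends (t : ℕ) : (W.ends t).card ≤ 2 * k := by
  have h1 : (Finset.univ.image fun i => (W.st t i).1).card ≤ k :=
    Finset.card_image_le.trans (by simp)
  have h2 : (Finset.univ.image fun i => (W.st t i).2.1).card ≤ k :=
    Finset.card_image_le.trans (by simp)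
  exact (Finset.card_union_le _ _).trans (by omega)

theorem rend {t a b : ℕ} (ha : W.c t a) (hb : ¬ W.c t b) (h : a < b) :
    ∃ x ∈ W.ends t, a < x ∧ x ≤ b := by
  obtain ⟨i, h1, h2⟩ := ha
  refine ⟨(W.st t i).2.1, Finset.mem_union_right _ (Finset.mem_image_of_mem _ (Finset.mem_univ i)),
    h2, ?_⟩
  by_contra hn
  exact hb ⟨i, by omega, by omega⟩

theorem lend {t a b : ℕ} (ha : ¬ W.c t a) (hb : W.c t b) (h : a < b) :
    ∃ x ∈ W.ends t, a < x ∧ x ≤ b := by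
  obtain ⟨i, h1, h2⟩ := hb
  refine ⟨(W.st t i).1, Finset.mem_union_left _ (Finset.mem_image_of_mem _ (Finset.mem_univ i)),
    ?_, h1⟩
  by_contra hn
  exact ha ⟨i, by omega, by omega⟩

theorem mixed {t a b p q : ℕ} (ha : W.c t a) (hb : ¬ W.c t b) (h1 : p ≤ a) (h2 : a < q)
    (h3 : p ≤ b) (h4 : b < q) : ∃ x ∈ W.ends t, p < x ∧ x < q := by
  rcases lt_trichotomy a b with h | h | h
  · obtain ⟨x, hx, h5, h6⟩ := W.rend ha hb h
    exact ⟨x, hx, by omega, by omega⟩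
  · exact absurd (h ▸ ha) hb
  · obtain ⟨x, hx, h5, h6⟩ := W.lend hb ha h
    exact ⟨x, hx, by omega, by omega⟩

theorem r_unc {t : ℕ} (ht : t ≤ W.T) {i : Fin k} (h : (W.st t i).1 < (W.st t i).2.1) :
    ¬ W.c t (W.st t i).2.1 := by
  rintro ⟨j, h1, h2⟩
  have hij : i ≠ j := by
    rintro rfl
    omega
  have := W.disj t ht i j hij h (by omega)
  omega

theorem l_unc {t : ℕ} (ht : t ≤ W.T) {i : Fin k} (h : (W.st t i).1 < (W.st t i).2.1)
    (h0 : 0 < (W.st t i).1) : ¬ W.c t ((W.st t i).1 - 1) := by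
  rintro ⟨j, h1, h2⟩
  have hij : i ≠ j := by
    rintro rfl
    omega
  have := W.disj t ht i j hij h (by omega)
  omega

/-- the edges of the interval are swept between the two times -/
def Swept (s0 s1 p q : ℕ) : Prop := ∀ e, p ≤ e → e < q → ¬ W.c s0 e ∧ W.c s1 e

theorem split {t0 t1 b L : ℕ} (h01 : t0 ≤ t1) (h1 : t1 ≤ W.T) (hL : 0 < L) (H I : Finset ℕ)
    (hI : ∀ q ∈ I, W.Swept t0 t1 (b + q * L) (b + (q + 1) * L))
    (hc : (2 * k + K) * H.card < I.card) :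
    ∃ s0 s1, t0 ≤ s0 ∧ s0 ≤ s1 ∧ s1 ≤ t1 ∧ (∀ e ∈ H, W.c s1 e → W.c s0 e) ∧
      ∃ q ∈ I, W.Swept s0 s1 (b + q * L) (b + (q + 1) * L) := by
  by_contra hn
  have hg : ∀ s, ∃ A : Finset ℕ, A.card ≤ K ∧
      (s < W.T → ∀ e, W.c (s + 1) e → W.c s e ∨ e ∈ A) := fun s => by
    by_cases hs : s < W.T
    · obtain ⟨A, h1, h2⟩ := W.grow s hs
      exact ⟨A, h1, fun _ => h2⟩
    · exact ⟨∅, by simp, fun h => absurd h hs⟩
  choose A hA1 hA2 using hg
  let sf : ℕ → ℕ := fun e => Nat.findGreatest (fun t => ¬ W.c t e) W.T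
  have hsub : I ⊆ H.biUnion fun e =>
      (W.ends (sf e) ∪ A (sf e)).image fun x => (x - b) / L := by
    intro q hq
    have ex : ∃ t, t0 ≤ t ∧ ∀ e, b + q * L ≤ e → e < b + (q + 1) * L → W.c t e :=
      ⟨t1, h01, fun e h2 h3 => (hI q hq e h2 h3).2⟩
    have hb := Nat.find_spec ex
    have hb1 : Nat.find ex ≤ t1 := Nat.find_min' ex ⟨h01, fun e h2 h3 => (hI q hq e h2 h3).2⟩
    set s1 := Nat.find ex with hs1
    let P : ℕ → Prop := fun t => ∀ e, b + q * L ≤ e → e < b + (q + 1) * L → ¬ W.c t e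
    have hP0 : P t0 := fun e h2 h3 => (hI q hq e h2 h3).1
    have ha0 : t0 ≤ Nat.findGreatest P s1 := Nat.le_findGreatest hb.1 hP0
    have haP : P (Nat.findGreatest P s1) := Nat.findGreatest_spec hb.1 hP0
    have ha1 : Nat.findGreatest P s1 ≤ s1 := Nat.findGreatest_le _
    set s0 := Nat.findGreatest P s1 with hs0
    have hex : ∃ e ∈ H, W.c s1 e ∧ ¬ W.c s0 e := by
      by_contra hne
      push Not at hne
      exact hn ⟨s0, s1, ha0, ha1, hb1, hne, q, hq, fun e h2 h3 => ⟨haP e h2 h3, hb.2 e h2 h3⟩⟩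
    obtain ⟨e, he, c1, c0⟩ := hex
    have g0 : s0 ≤ sf e := Nat.le_findGreatest (by omega) c0
    have gT : sf e ≤ W.T := Nat.findGreatest_le _
    have g1 : sf e < s1 := by
      by_contra hge
      exact (Nat.findGreatest_spec (P := fun t => ¬ W.c t e) (m := s0) (n := W.T) (by omega) c0)
        (W.c_mono (not_lt.mp hge) gT c1)
    have n1 : ¬ ∀ e', b + q * L ≤ e' → e' < b + (q + 1) * L → W.c (sf e) e' := fun h =>
      Nat.find_min ex g1 ⟨by omega, h⟩
    have n2 : ¬ P (sf e + 1) := Nat.findGreatest_is_greatest (n := s1) (by omega) (by omega)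
    simp only [P] at n2
    push Not at n1 n2
    obtain ⟨e1, a1, a2, a3⟩ := n1
    obtain ⟨e2, b1, b2, b3⟩ := n2
    have fin : ∀ x, b + q * L ≤ x → x < b + (q + 1) * L → (x - b) / L = q := fun x h2 h3 =>
      Nat.div_eq_of_lt_le (by omega) (by omega)
    refine Finset.mem_biUnion.mpr ⟨e, he, Finset.mem_image.mpr ?_⟩
    rcases hA2 (sf e) (by omega) e2 b3 with h | h
    · obtain ⟨x, hx, x1, x2⟩ := W.mixed h a3 b1 b2 a1 a2
      exact ⟨x, Finset.mem_union_left _ hx, fin x x1.le x2⟩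
    · exact ⟨e2, Finset.mem_union_right _ h, fin e2 b1 b2⟩
  have := (Finset.card_le_card hsub).trans (Finset.card_biUnion_le_card_mul H _ (2 * k + K)
    fun e _ => Finset.card_image_le.trans ((Finset.card_union_le _ _).trans
      (add_le_add (W.card_ends _) (hA1 _))))
  rw [mul_comm] at this
  omega

/-- the statement that is carried from level to level -/
def Claim (M : ℕ → ℕ) (L B d : ℕ) : Prop :=
  ∃ t0 t1, t0 ≤ t1 ∧ t1 ≤ W.T ∧
    (∀ j, 1 ≤ j → j ≤ d → ∃ c e e', M j ∣ c ∧ ¬ M (j - 1) ∣ c ∧ c ≤ e ∧ e < c + L ∧ c ≤ e' ∧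
      e' < c + L ∧ W.c t0 e ∧ ¬ W.c t0 e') ∧
    (∀ e, e % M d < L → W.c t1 e → W.c t0 e) ∧
    ∃ u0, W.Swept t0 t1 (u0 * M (d + 1)) ((u0 + B) * M (d + 1))

/-- every stretch of the level is empty or full -/
def Clear (Mp M L t : ℕ) : Prop :=
  ∀ u, ¬ Mp ∣ u * M → ∀ e e', u * M ≤ e → e < u * M + L → u * M ≤ e' → e' < u * M + L →
    W.c t e → W.c t e'

/-- all nodes of the level are swept through clear times -/
def NoWin (Mp M L B : ℕ) : Prop :=
  ∃ t0 t1, t0 ≤ t1 ∧ t1 ≤ W.T ∧ (∀ e, e % Mp < L → W.c t1 e → W.c t0 e) ∧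
    (∃ u0, W.Swept t0 t1 (u0 * M) ((u0 + B) * M)) ∧
    ∀ u, W.Swept t0 t1 (u * M + L) ((u + 1) * M) → ∃ τ, t0 ≤ τ ∧ τ ≤ t1 ∧ W.Clear Mp M L τ ∧
      ∃ e e', u * M + L ≤ e ∧ e < (u + 1) * M ∧ u * M + L ≤ e' ∧ e' < (u + 1) * M ∧
        W.c τ e ∧ ¬ W.c τ e'

theorem half {s0 s1 p q : ℕ} (h01 : s0 ≤ s1) (h1 : s1 ≤ W.T) (hs : W.Swept s0 s1 p q)
    (hK : p + K < q) : ∃ τ, s0 ≤ τ ∧ τ ≤ s1 ∧ ∃ e e', p ≤ e ∧ e < q ∧ p ≤ e' ∧ e' < q ∧
      W.c τ e ∧ ¬ W.c τ e' := by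
  have ex : ∃ t, s0 ≤ t ∧ ∃ e, p ≤ e ∧ e < q ∧ W.c t e :=
    ⟨s1, h01, p, le_rfl, by omega, (hs p le_rfl (by omega)).2⟩
  have hb := Nat.find_spec ex
  have hb1 : Nat.find ex ≤ s1 :=
    Nat.find_min' ex ⟨h01, p, le_rfl, by omega, (hs p le_rfl (by omega)).2⟩
  obtain ⟨h0, e, e1, e2, e3⟩ := hb
  have hne : s0 ≠ Nat.find ex := fun h => (hs e e1 e2).1 (h ▸ e3)
  obtain ⟨s, hs'⟩ : ∃ s, Nat.find ex = s + 1 := ⟨Nat.find ex - 1, by omega⟩
  have hmin := Nat.find_min ex (m := s) (by omega)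
  obtain ⟨A, hA, hA'⟩ := W.grow s (by omega)
  refine ⟨Nat.find ex, h0, hb1, ?_⟩
  by_contra hn
  have : Finset.Ico p q ⊆ A := by
    intro x hx
    rw [Finset.mem_Ico] at hx
    have hx' : W.c (Nat.find ex) x := by
      by_contra hc
      exact hn ⟨e, x, e1, e2, hx.1, hx.2, e3, hc⟩
    rw [hs'] at hx'
    rcases hA' x hx' with h | h
    · exact absurd ⟨by omega, x, hx.1, hx.2, h⟩ hmin
    · exact h
  have := Finset.card_le_card this
  rw [Nat.card_Ico] at this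
  omega

theorem base (M : ℕ → ℕ) (L B N : ℕ) (hB : 0 < B * M 1) (hN : N * (B * M 1) ≤ n)
    (hV : (2 * k + K) * ((Finset.range n).filter fun e => e % M 0 < L).card + K < N) :
    W.Claim M L B 0 := by
  obtain ⟨A, hA, hA'⟩ := W.fin
  have hI : N - K ≤ ((Finset.range N) \ A.image fun x => x / (B * M 1)).card := by
    have := Finset.le_card_sdiff (A.image fun x => x / (B * M 1)) (Finset.range N)
    have h2 : (A.image fun x => x / (B * M 1)).card ≤ K := Finset.card_image_le.trans hA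
    rw [Finset.card_range] at this
    omega
  obtain ⟨s0, s1, _, h2, h3, h4, q, _, h5⟩ := W.split (b := 0) (Nat.zero_le W.T) le_rfl hB
    ((Finset.range n).filter fun e => e % M 0 < L)
    ((Finset.range N) \ A.image fun x => x / (B * M 1)) (fun q hq e e1 e2 => by
      rw [Finset.mem_sdiff, Finset.mem_range] at hq
      refine ⟨W.init e, (hA' e ?_).resolve_right fun h => hq.2 (Finset.mem_image.mpr ⟨e, h, ?_⟩)⟩
      · have : (q + 1) * (B * M 1) ≤ N * (B * M 1) := Nat.mul_le_mul_right _ hq.1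
        omega
      · exact Nat.div_eq_of_lt_le (by omega) (by omega)) (by omega)
  refine ⟨s0, s1, h2, h3, fun j h1 h0 => by omega, fun e he hc =>
    h4 e (Finset.mem_filter.mpr ⟨Finset.mem_range.mpr (W.c_lt h3 hc), he⟩) hc, q * B, ?_⟩
  have e1 : q * B * M (0 + 1) = 0 + q * (B * M 1) := by ring
  have e2 : (q * B + B) * M (0 + 1) = 0 + (q + 1) * (B * M 1) := by ring
  rw [e1, e2]
  exact h5

theorem step (M : ℕ → ℕ) (L B N d : ℕ) (hd : ∀ j ≤ d, M d ∣ M j) (hdv : M (d + 2) ∣ M (d + 1))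
    (hL : L ≤ B * M (d + 2)) (hK : K < B * M (d + 2))
    (hN : (N + 1) * (B * M (d + 2)) ≤ M (d + 1))
    (hV : (2 * k + K) * ((Finset.range n).filter fun e => e % M (d + 1) < L).card < N)
    (h : W.Claim M L B d) : W.Claim M L B (d + 1) ∨ W.NoWin (M d) (M (d + 1)) L B := by
  obtain ⟨t0, t1, h01, h1, hop, hfr, hbl⟩ := h
  by_contra hn
  push Not at hn
  refine hn.2 ⟨t0, t1, h01, h1, hfr, hbl, fun u hu => ?_⟩
  obtain ⟨s0, s1, g1, g2, g3, g4, q, hq, g5⟩ := W.split (b := u * M (d + 1))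
    (L := B * M (d + 2)) h01 h1 (by omega)
    ((Finset.range n).filter fun e => e % M (d + 1) < L) (Finset.Icc 1 N) (fun q hq e e1 e2 => by
      rw [Finset.mem_Icc] at hq
      have a1 : 1 * (B * M (d + 2)) ≤ q * (B * M (d + 2)) := Nat.mul_le_mul_right _ hq.1
      have a2 : (q + 1) * (B * M (d + 2)) ≤ (N + 1) * (B * M (d + 2)) :=
        Nat.mul_le_mul_right _ (by omega)
      exact hu e (by omega) (by rw [add_mul]; omega)) (by rw [Nat.card_Icc]; omega)
  rw [Finset.mem_Icc] at hq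
  have a1 : 1 * (B * M (d + 2)) ≤ q * (B * M (d + 2)) := Nat.mul_le_mul_right _ hq.1
  have a2 : (q + 1) * (B * M (d + 2)) ≤ (N + 1) * (B * M (d + 2)) :=
    Nat.mul_le_mul_right _ (by omega)
  have g4' : ∀ e, e % M (d + 1) < L → W.c s1 e → W.c s0 e := fun e he hc =>
    g4 e (Finset.mem_filter.mpr ⟨Finset.mem_range.mpr (W.c_lt (by omega) hc), he⟩) hc
  have hcl : W.Clear (M d) (M (d + 1)) L s0 := by
    by_contra hc
    unfold Clear at hc
    push Not at hc
    obtain ⟨v, hv, e, e', c1, c2, c3, c4, c5, c6⟩ := hc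
    refine hn.1 ⟨s0, s1, g2, by omega, fun j j1 j2 => ?_, g4', ?_⟩
    · rcases Nat.lt_or_ge d j with hj | hj
      · have : j = d + 1 := by omega
        subst this
        exact ⟨v * M (d + 1), e, e', Dvd.intro_left v rfl, hv, c1, c2, c3, c4, c5, c6⟩
      · obtain ⟨c, f, f', d1, d2, d3, d4, d5, d6, d7, d8⟩ := hop j j1 hj
        exact ⟨c, f, f', d1, d2, d3, d4, d5, d6, W.c_mono g1 (by omega) d7, fun hc =>
          d8 (hfr f' (mod_lt_of_dvd ((hd j hj).trans d1) d5 d6) (W.c_mono (by omega) h1 hc))⟩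
    · obtain ⟨ν, hν⟩ := hdv
      refine ⟨u * ν + q * B, ?_⟩
      have e1 : (u * ν + q * B) * M (d + 1 + 1) = u * M (d + 1) + q * (B * M (d + 2)) := by
        rw [hν]; ring
      have e2 : (u * ν + q * B + B) * M (d + 1 + 1) =
          u * M (d + 1) + (q + 1) * (B * M (d + 2)) := by
        rw [hν]; ring
      rw [e1, e2]
      exact g5
  obtain ⟨τ, k1, k2, e, e', k3, k4, k5, k6, k7, k8⟩ := W.half g2 (by omega) g5
    (by rw [add_mul]; omega)
  refine ⟨τ, by omega, by omega, fun v hv f f' c1 c2 c3 c4 c5 => ?_, e, e', by omega,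
    by rw [add_mul]; omega, by omega, by rw [add_mul]; omega, k7, k8⟩
  exact W.c_mono k1 (by omega) (hcl v hv f f' c1 c2 c3 c4
    (g4' f (mod_lt_of_dvd (Dvd.intro_left v rfl) c1 c2) (W.c_mono k2 (by omega) c5)))

theorem top (M : ℕ → ℕ) (L B d : ℕ) (hd : ∀ i j, i ≤ j → j ≤ d → M j ∣ M i) (hL : L ≤ M d)
    (h : W.Claim M L B d) : d ≤ 2 * k := by
  obtain ⟨t0, _, _, _, hop, _⟩ := h
  have : ∀ j, ∃ x c, 1 ≤ j → j ≤ d →
      x ∈ W.ends t0 ∧ M j ∣ c ∧ ¬ M (j - 1) ∣ c ∧ c < x ∧ x < c + L := fun j => by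
    by_cases hj : 1 ≤ j ∧ j ≤ d
    · obtain ⟨c, e, e', d1, d2, d3, d4, d5, d6, d7, d8⟩ := hop j hj.1 hj.2
      obtain ⟨x, hx, x1, x2⟩ := W.mixed d7 d8 d3 d4 d5 d6
      exact ⟨x, c, fun _ _ => ⟨hx, d1, d2, x1, x2⟩⟩
    · exact ⟨0, 0, fun h1 h2 => absurd ⟨h1, h2⟩ hj⟩
  choose x c hx using this
  have key : ∀ i j, 1 ≤ i → i < j → j ≤ d → x i ≠ x j := by
    intro i j i1 ij jd e
    obtain ⟨_, a1, _, a3, a4⟩ := hx i i1 (by omega)
    obtain ⟨_, b1, b2, b3, b4⟩ := hx j (by omega) jd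
    obtain ⟨p, hp⟩ := (hd i d (by omega) le_rfl).trans a1
    obtain ⟨q, hq⟩ := (hd j d jd le_rfl).trans b1
    have : p = q := by
      rcases lt_trichotomy p q with h | h | h
      · have : M d * (p + 1) ≤ M d * q := Nat.mul_le_mul_left _ h
        rw [mul_add] at this
        omega
      · exact h
      · have : M d * (q + 1) ≤ M d * p := Nat.mul_le_mul_left _ h
        rw [mul_add] at this
        omega
    refine b2 ?_
    rw [hq, ← this, ← hp]
    exact (hd i (j - 1) (by omega) (by omega)).trans a1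
  have := Finset.card_le_card_of_injOn (s := Finset.Icc 1 d) (t := W.ends t0) x
    (fun j hj => by
      have hj' := Finset.mem_Icc.mp hj
      exact (hx j hj'.1 hj'.2).1) (fun i hi j hj e => by
      have hi' := Finset.mem_Icc.mp hi
      have hj' := Finset.mem_Icc.mp hj
      rcases lt_trichotomy i j with h | h | h
      · exact absurd e (key i j hi'.1 h hj'.2)
      · exact h
      · exact absurd e.symm (key j i hj'.1 h hi'.2))
  rw [Nat.card_Icc] at this
  have := W.card_ends t0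
  omega

end Sweep

end Pool.Agent.P.MP_f04817_lc
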