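import Pool.Agent.P.MP_f04817_lc.Nb1

/-! Sweeps: from clear times to equations with fresh nodes. -/

set_option autoImplicit false

namespace Pool.Agent.P.MP_f04817_lc

open scoped Classical

/-- the coarse place of a vertex -/
def lam (M L x : ℕ) : ℕ := if nd M x * M + L ≤ x then (nd M x + 1) * M else x

/-- the vertex is away from the node `p` and its two stretches -/
def Free (M L p x : ℕ) : Prop := x ≤ p * M ∨ (p + 1) * M + L ≤ x

/-- the coarse places near the anchors -/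
def Nset (M B : ℕ) (An : Finset ℕ) : Finset ℕ :=
  insert 0 (An ∪ (An ×ˢ Finset.range (B + 1)).image fun q => (nd M q.1 + 1 - q.2) * M)

theorem card_Nset (M B : ℕ) (An : Finset ℕ) :
    (Nset M B An).card ≤ 1 + An.card + An.card * (B + 1) := by
  have h1 : ((An ×ˢ Finset.range (B + 1)).image fun q => (nd M q.1 + 1 - q.2) * M).card ≤
      An.card * (B + 1) := Finset.card_image_le.trans (by simp)
  have h2 := Finset.card_union_le An
    ((An ×ˢ Finset.range (B + 1)).image fun q => (nd M q.1 + 1 - q.2) * M)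
  exact (Finset.card_insert_le _ _).trans (by omega)

theorem Nset_mono (M B : ℕ) {An An' : Finset ℕ} (h : An ⊆ An') : Nset M B An ⊆ Nset M B An' :=
  Finset.insert_subset_insert _ (Finset.union_subset_union h
    (Finset.image_subset_image (Finset.product_subset_product_left h)))

theorem mem_Nset {M L B u j x : ℕ} {An : Finset ℕ} (hL : 0 < L) (hx : x ∈ An) (h1 : u * M + L ≤ x)
    (h2 : x ≤ (u + 1) * M) (hj : j ≤ B) : (u + 1 - j) * M ∈ Nset M B An := by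
  refine Finset.mem_insert_of_mem (Finset.mem_union_right _ (Finset.mem_image.mpr
    ⟨(x, j), Finset.mem_product.mpr ⟨hx, Finset.mem_range.mpr (by omega)⟩, ?_⟩))
  rw [nd_eq (by omega) h2]

theorem lam_J {M L x u : ℕ} (hL : 0 < L) (h1 : u * M + L ≤ x) (h2 : x ≤ (u + 1) * M) :
    lam M L x = (u + 1) * M := by
  unfold lam
  rw [nd_eq (by omega) h2, if_pos h1]

theorem lam_cases {M : ℕ} (hM : 0 < M) (L x : ℕ) : (∃ u, u * M + L ≤ x ∧ x ≤ (u + 1) * M) ∨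
    (lam M L x = x ∧ (x = 0 ∨ ∃ u, u * M < x ∧ x < u * M + L)) := by
  have h1 : nd M x * M ≤ x - 1 := Nat.div_mul_le_self _ _
  have h2 : x - 1 < (nd M x + 1) * M := by
    have := Nat.lt_div_mul_add (a := x - 1) hM
    rw [add_mul, one_mul]
    exact this
  by_cases h : nd M x * M + L ≤ x
  · exact Or.inl ⟨nd M x, h, by omega⟩
  · refine Or.inr ⟨if_neg h, ?_⟩
    rcases Nat.eq_zero_or_pos x with h0 | h0
    · exact Or.inl h0
    · exact Or.inr ⟨nd M x, by omega, by omega⟩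

theorem free_lo {M L p x : ℕ} (hL : 0 < L) (hM : 0 < M) (h : x ≤ p * M) :
    Free M L p (lam M L x) := by
  left
  rcases lam_cases hM L x with ⟨u, h1, h2⟩ | ⟨h1, _⟩
  · rw [lam_J hL h1 h2]
    exact Nat.mul_le_mul_right _ (Nat.lt_of_mul_lt_mul_right (a := M) (by omega))
  · omega

theorem free_hi {M L p x : ℕ} (hL : 0 < L) (hM : 0 < M) (h : (p + 1) * M + L ≤ x) :
    Free M L p (lam M L x) := by
  right
  rcases lam_cases hM L x with ⟨u, h1, h2⟩ | ⟨h1, _⟩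
  · rw [lam_J hL h1 h2]
    omega
  · omega

namespace Sweep

variable {G : Type} [Group G] {k K : ℕ} {Y : Finset G} {z : ℕ → G} {n : ℕ} (W : Sweep k K Y z n)

/-- the data of a window in which all nodes are swept through clear times -/
structure Win (Mp M L t0 t1 : ℕ) : Prop where
  hL : 0 < L
  hLM : L ≤ M
  h1 : t1 ≤ W.T
  fr : ∀ e, e % Mp < L → W.c t1 e → W.c t0 e
  sw : ∀ u, W.Swept t0 t1 (u * M + L) ((u + 1) * M) → ∃ τ, t0 ≤ τ ∧ τ ≤ t1 ∧ W.Clear Mp M L τ ∧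
      ∃ e e', u * M + L ≤ e ∧ e < (u + 1) * M ∧ u * M + L ≤ e' ∧ e' < (u + 1) * M ∧
        W.c τ e ∧ ¬ W.c τ e'

/-- clear times of the window -/
def Cl (Mp M L t0 t1 τ : ℕ) : Prop := t0 ≤ τ ∧ τ ≤ t1 ∧ W.Clear Mp M L τ

/-- the stretches covered between two times -/
noncomputable def X (M τ τ' : ℕ) : Finset ℕ :=
  (Finset.range (n + 1)).filter fun u => ¬ W.c τ (u * M) ∧ W.c τ' (u * M)

variable {W} {Mp M L t0 t1 : ℕ}

theorem Win.mem_X (w : W.Win Mp M L t0 t1) {τ τ' u : ℕ} (h : τ' ≤ t1) :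
    u ∈ W.X M τ τ' ↔ ¬ W.c τ (u * M) ∧ W.c τ' (u * M) := by
  unfold X
  rw [Finset.mem_filter, Finset.mem_range]
  refine ⟨fun h => h.2, fun h2 => ⟨?_, h2⟩⟩
  have h3 := W.c_lt (h.trans w.h1) h2.2
  have : u * 1 ≤ u * M := Nat.mul_le_mul_left _ (w.hL.trans_le w.hLM)
  omega

theorem Win.frz (w : W.Win Mp M L t0 t1) {τ τ' u e : ℕ} (h0 : t0 ≤ τ) (hτ : τ ≤ t1) (h : τ' ≤ t1)
    (hd : Mp ∣ u * M) (e1 : u * M ≤ e) (e2 : e < u * M + L) (hc : W.c τ' e) : W.c τ e :=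
  W.c_mono h0 (hτ.trans w.h1) (w.fr e (mod_lt_of_dvd hd e1 e2) (W.c_mono h w.h1 hc))

theorem Win.near (w : W.Win Mp M L t0 t1) {τ τ' u : ℕ} (c1 : W.Cl Mp M L t0 t1 τ)
    (c2 : W.Cl Mp M L t0 t1 τ') (hu : u ∈ W.X M τ τ') :
    (∃ x ∈ W.ends τ ∪ W.ends τ', u * M + L ≤ x ∧ x ≤ (u + 1) * M) ∨
      (W.Swept τ τ' (u * M + L) ((u + 1) * M) ∧ u + 1 ∈ W.X M τ τ') := by
  have hL := w.hL
  obtain ⟨u1, u2⟩ := (w.mem_X c2.2.1).mp hu
  have hex : ¬ Mp ∣ u * M := fun hd => u1 (w.frz c1.1 c1.2.1 c2.2.1 hd le_rfl (by omega) u2)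
  have a1 : ¬ W.c τ (u * M + L - 1) := fun h =>
    u1 (c1.2.2 u hex _ _ (by omega) (by omega) le_rfl (by omega) h)
  have a2 : W.c τ' (u * M + L - 1) := c2.2.2 u hex _ _ le_rfl (by omega) (by omega) (by omega) u2
  have hM : u * M + L ≤ (u + 1) * M := by
    have := w.hLM
    rw [add_mul]
    omega
  by_cases b1 : ∃ e, u * M + L ≤ e ∧ e ≤ (u + 1) * M ∧ W.c τ e
  · obtain ⟨e, e1, e2, e3⟩ := b1
    obtain ⟨x, hx, x1, x2⟩ := W.lend a1 e3 (by omega)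
    exact Or.inl ⟨x, Finset.mem_union_left _ hx, by omega, by omega⟩
  by_cases b2 : ∃ e, u * M + L ≤ e ∧ e ≤ (u + 1) * M ∧ ¬ W.c τ' e
  · obtain ⟨e, e1, e2, e3⟩ := b2
    obtain ⟨x, hx, x1, x2⟩ := W.rend a2 e3 (by omega)
    exact Or.inl ⟨x, Finset.mem_union_right _ hx, by omega, by omega⟩
  push Not at b1 b2
  exact Or.inr ⟨fun e e1 e2 => ⟨b1 e e1 e2.le, b2 e e1 e2.le⟩,
    (w.mem_X c2.2.1).mpr ⟨b1 _ hM le_rfl, b2 _ hM le_rfl⟩⟩

theorem card_ends2 (τ τ' : ℕ) : (W.ends τ ∪ W.ends τ').card ≤ 4 * k := by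
  have := W.card_ends τ
  have := W.card_ends τ'
  exact (Finset.card_union_le _ _).trans (by omega)

theorem Win.stepc (w : W.Win Mp M L t0 t1) {τ τ' : ℕ} (c1 : W.Cl Mp M L t0 t1 τ)
    (c2 : W.Cl Mp M L t0 t1 τ') (h : ∀ s, W.Cl Mp M L t0 t1 s → s ≤ τ ∨ τ' ≤ s) :
    (W.X M τ τ').card ≤ 4 * k := by
  have hL := w.hL
  refine (card_le_of_img (nd M) fun u hu => ?_).trans (card_ends2 (W := W) τ τ')
  rcases w.near c1 c2 hu with ⟨x, hx, x1, x2⟩ | ⟨hs, _⟩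
  · exact ⟨x, hx, nd_eq (by omega) x2⟩
  · obtain ⟨s, s1, s2, s3, e, e', e1, e2, e3, e4, e5, e6⟩ := w.sw u fun e e1 e2 =>
      ⟨fun hc => (hs e e1 e2).1 (W.c_mono c1.1 (c1.2.1.trans w.h1) hc),
        W.c_mono c2.2.1 w.h1 (hs e e1 e2).2⟩
    rcases h s ⟨s1, s2, s3⟩ with h | h
    · exact absurd (W.c_mono h (c1.2.1.trans w.h1) e5) (hs e e1 e2).1
    · exact absurd (W.c_mono h (s2.trans w.h1) (hs e' e3 e4).2) e6

theorem prev {Q : ℕ → Prop} {a b : ℕ} (ha : Q a) (hab : a < b) :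
    ∃ τ, Q τ ∧ a ≤ τ ∧ τ < b ∧ ∀ s, Q s → s ≤ τ ∨ b ≤ s := by
  refine ⟨Nat.findGreatest Q (b - 1), Nat.findGreatest_spec (m := a) (by omega) ha,
    Nat.le_findGreatest (by omega) ha, ?_, fun s hs => ?_⟩
  · have := Nat.findGreatest_le (P := Q) (b - 1)
    omega
  · rcases Nat.lt_or_ge s b with h | h
    · exact Or.inl (Nat.le_findGreatest (by omega) hs)
    · exact Or.inr h

theorem Win.range (w : W.Win Mp M L t0 t1) {B u0 : ℕ} (h01 : t0 ≤ t1) (hB : 4 * k < B)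
    (hb : W.Swept t0 t1 (u0 * M) ((u0 + B) * M)) :
    ∃ τ0 τ1, W.Cl Mp M L t0 t1 τ0 ∧ W.Cl Mp M L t0 t1 τ1 ∧ (∀ s, W.Cl Mp M L t0 t1 s → τ0 ≤ s) ∧
      B - 4 * k ≤ (W.X M τ0 τ1).card ∧ (W.X M τ0 τ1).card < B := by
  have hL := w.hL
  have hLM := w.hLM
  have hτ : ∀ u, u0 ≤ u → u < u0 + B → _ := fun u u1 u2 => w.sw u fun e e1 e2 => hb e
    (le_trans (Nat.mul_le_mul_right M u1) (by omega))
    (lt_of_lt_of_le e2 (Nat.mul_le_mul_right M (by omega)))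
  have ex : ∃ τ, W.Cl Mp M L t0 t1 τ := by
    obtain ⟨τ, a1, a2, a3, _⟩ := hτ u0 le_rfl (by omega)
    exact ⟨τ, a1, a2, a3⟩
  have c0 := Nat.find_spec ex
  have m0 : ∀ s, W.Cl Mp M L t0 t1 s → Nat.find ex ≤ s := fun s hs => Nat.find_min' ex hs
  set τ0 := Nat.find ex
  have cm : W.Cl Mp M L t0 t1 (Nat.findGreatest (W.Cl Mp M L t0 t1) t1) :=
    Nat.findGreatest_spec c0.2.1 c0
  have mm : ∀ s, W.Cl Mp M L t0 t1 s → s ≤ Nat.findGreatest (W.Cl Mp M L t0 t1) t1 :=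
    fun s hs => Nat.le_findGreatest hs.2.1 hs
  set τm := Nat.findGreatest (W.Cl Mp M L t0 t1) t1
  have big : B - 4 * k ≤ (W.X M τ0 τm).card := by
    have hsub : Finset.Ico u0 (u0 + B) ⊆ W.X M τ0 τm ∪ (W.ends τ0 ∪ W.ends τm).image (nd M) := by
      intro u hu
      rw [Finset.mem_Ico] at hu
      obtain ⟨s, s1, s2, s3, e, e', e1, e2, e3, e4, e5, e6⟩ := hτ u hu.1 hu.2
      have hu' := hb (u * M) (Nat.mul_le_mul_right M hu.1)
        (Nat.mul_lt_mul_of_pos_right hu.2 (by omega))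
      have hex : ¬ Mp ∣ u * M := fun hd =>
        hu'.1 (w.frz le_rfl h01 le_rfl hd le_rfl (by omega) hu'.2)
      by_cases b1 : W.c τ0 (u * M)
      · obtain ⟨x, hx, x1, x2⟩ := W.rend (a := u * M + L - 1) (b := e')
          (c0.2.2 u hex _ _ le_rfl (by omega) (by omega) (by omega) b1)
          (fun hc => e6 (W.c_mono (m0 s ⟨s1, s2, s3⟩) (s2.trans w.h1) hc)) (by omega)
        exact Finset.mem_union_right _ (Finset.mem_image.mpr
          ⟨x, Finset.mem_union_left _ hx, nd_eq (by omega) (by omega)⟩)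
      by_cases b2 : W.c τm (u * M)
      · exact Finset.mem_union_left _ ((w.mem_X cm.2.1).mpr ⟨b1, b2⟩)
      · obtain ⟨x, hx, x1, x2⟩ := W.lend (a := u * M + L - 1) (b := e)
          (fun hc => b2 (cm.2.2 u hex _ _ (by omega) (by omega) le_rfl (by omega) hc))
          (W.c_mono (mm s ⟨s1, s2, s3⟩) (cm.2.1.trans w.h1) e5) (by omega)
        exact Finset.mem_union_right _ (Finset.mem_image.mpr
          ⟨x, Finset.mem_union_right _ hx, nd_eq (by omega) (by omega)⟩)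
    have h1 := (Finset.card_le_card hsub).trans (Finset.card_union_le _ _)
    have h2 : ((W.ends τ0 ∪ W.ends τm).image (nd M)).card ≤ 4 * k :=
      Finset.card_image_le.trans (card_ends2 (W := W) τ0 τm)
    rw [Nat.card_Ico] at h1
    omega
  have ex1 : ∃ τ, W.Cl Mp M L t0 t1 τ ∧ B - 4 * k ≤ (W.X M τ0 τ).card := ⟨τm, cm, big⟩
  obtain ⟨c1, b1⟩ := Nat.find_spec ex1
  refine ⟨τ0, Nat.find ex1, c0, c1, m0, b1, ?_⟩
  have hlt : τ0 < Nat.find ex1 := by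
    refine lt_of_le_of_ne (m0 _ c1) fun e => ?_
    rw [← e] at b1
    have : W.X M τ0 τ0 = ∅ := Finset.filter_eq_empty_iff.mpr fun _ _ h => h.1 h.2
    rw [this, Finset.card_empty] at b1
    omega
  obtain ⟨τ, p1, _, p3, p4⟩ := prev c0 hlt
  have q1 : ¬ B - 4 * k ≤ (W.X M τ0 τ).card := fun h => Nat.find_min ex1 p3 ⟨p1, h⟩
  have q2 := w.stepc p1 c1 p4
  have hsub : W.X M τ0 (Nat.find ex1) ⊆ W.X M τ0 τ ∪ W.X M τ (Nat.find ex1) := by
    intro u hu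
    obtain ⟨u1, u2⟩ := (w.mem_X c1.2.1).mp hu
    by_cases h : W.c τ (u * M)
    · exact Finset.mem_union_left _ ((w.mem_X p1.2.1).mpr ⟨u1, h⟩)
    · exact Finset.mem_union_right _ ((w.mem_X c1.2.1).mpr ⟨h, u2⟩)
  have := (Finset.card_le_card hsub).trans (Finset.card_union_le _ _)
  omega

theorem Win.locU (w : W.Win Mp M L t0 t1) {τ0 τ1 B u : ℕ} (c0 : W.Cl Mp M L t0 t1 τ0)
    (c1 : W.Cl Mp M L t0 t1 τ1) (hB : (W.X M τ0 τ1).card < B) (hu : u ∈ W.X M τ0 τ1) :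
    (u + 1) * M ∈ Nset M B (W.ends τ0 ∪ W.ends τ1) ∧
      u * M ∈ Nset M B (W.ends τ0 ∪ W.ends τ1) := by
  have : ∃ i < B, ∃ x ∈ W.ends τ0 ∪ W.ends τ1, (u + i) * M + L ≤ x ∧ x ≤ (u + i + 1) * M := by
    by_contra hn
    have key : ∀ i ≤ B, u + i ∈ W.X M τ0 τ1 := by
      intro i
      induction i with
      | zero => exact fun _ => hu
      | succ i ih =>
        intro hi
        rcases w.near c0 c1 (ih (by omega)) with h | h
        · exact absurd ⟨i, by omega, h⟩ hn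
        · exact h.2
    have hsub : Finset.Icc u (u + B) ⊆ W.X M τ0 τ1 := by
      intro v hv
      rw [Finset.mem_Icc] at hv
      have := key (v - u) (by omega)
      rwa [show u + (v - u) = v by omega] at this
    have := Finset.card_le_card hsub
    rw [Nat.card_Icc] at this
    omega
  obtain ⟨i, hi, x, hx, x1, x2⟩ := this
  have a := mem_Nset (j := i) (B := B) w.hL hx x1 x2 (by omega)
  have b := mem_Nset (j := i + 1) (B := B) w.hL hx x1 x2 (by omega)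
  rw [show u + i + 1 - i = u + 1 by omega] at a
  rw [show u + i + 1 - (i + 1) = u by omega] at b
  exact ⟨a, b⟩

theorem Win.notint (w : W.Win Mp M L t0 t1) {τ v : ℕ} (c : W.Cl Mp M L t0 t1 τ)
    (hv : ¬ Mp ∣ v * M) {i : Fin k} (h : (W.st τ i).1 < (W.st τ i).2.1) :
    ((W.st τ i).1 ≤ v * M ∨ v * M + L ≤ (W.st τ i).1) ∧
      ((W.st τ i).2.1 ≤ v * M ∨ v * M + L ≤ (W.st τ i).2.1) := by
  have hT := c.2.1.trans w.h1
  constructor
  · by_contra hn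
    exact W.l_unc hT h (by omega) (c.2.2 v hv (W.st τ i).1 _ (by omega) (by omega) (by omega)
      (by omega) ⟨i, le_rfl, h⟩)
  · by_contra hn
    exact W.r_unc hT h (c.2.2 v hv ((W.st τ i).2.1 - 1) _ (by omega) (by omega) (by omega)
      (by omega) ⟨i, by omega, by omega⟩)

theorem Win.loc (w : W.Win Mp M L t0 t1) {τ0 τ1 τ B : ℕ} (c0 : W.Cl Mp M L t0 t1 τ0)
    (c1 : W.Cl Mp M L t0 t1 τ1) (c : W.Cl Mp M L t0 t1 τ) (h0 : τ0 ≤ τ) (h1 : τ ≤ τ1)
    (hB : (W.X M τ0 τ1).card < B) (i : Fin k)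
    (hne : lam M L (W.st τ i).1 ≠ lam M L (W.st τ i).2.1) :
    lam M L (W.st τ i).1 ∈ Nset M B (W.ends τ0 ∪ W.ends τ1) ∧
      lam M L (W.st τ i).2.1 ∈ Nset M B (W.ends τ0 ∪ W.ends τ1) := by
  have hL := w.hL
  have hM : 0 < M := w.hL.trans_le w.hLM
  have hT := c.2.1.trans w.h1
  have hT1 := c1.2.1.trans w.h1
  have hlt : (W.st τ i).1 < (W.st τ i).2.1 :=
    lt_of_le_of_ne (W.le τ hT i).1 fun e => hne (by rw [e])
  have anc : ∀ x, x ∈ W.ends τ0 → x ∈ Nset M B (W.ends τ0 ∪ W.ends τ1) := fun x hx =>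
    Finset.mem_insert_of_mem (Finset.mem_union_left _ (Finset.mem_union_left _ hx))
  constructor
  · rcases lam_cases hM L (W.st τ i).1 with ⟨u, u1, u2⟩ | ⟨e, e0 | ⟨u, u1, u2⟩⟩
    · have hr : (u + 1) * M < (W.st τ i).2.1 := by
        by_contra hn
        exact hne (by rw [lam_J hL u1 u2, lam_J hL (x := (W.st τ i).2.1) (u := u) (by omega)
          (by omega)])
      have a1 : ¬ W.c τ0 ((W.st τ i).1 - 1) := fun hc =>
        W.l_unc hT hlt (by omega) (W.c_mono h0 hT hc)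
      rw [lam_J hL u1 u2]
      by_cases b : W.c τ0 ((u + 1) * M)
      · obtain ⟨x, hx, x1, x2⟩ := W.lend a1 b (by omega)
        exact mem_Nset (j := 0) hL (Finset.mem_union_left _ hx) (by omega) x2 (Nat.zero_le _)
      · exact (w.locU c0 c1 hB ((w.mem_X c1.2.1).mpr
          ⟨b, W.c_mono h1 hT1 ⟨i, u2, hr⟩⟩)).2
    · rw [e, e0]
      exact Finset.mem_insert_self _ _
    · have hd : Mp ∣ u * M := by
        by_contra hv
        have := (w.notint c hv hlt).1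
        omega
      obtain ⟨x, hx, x1, x2⟩ := W.lend (t := τ0) (a := (W.st τ i).1 - 1) (b := (W.st τ i).1)
        (fun hc => W.l_unc hT hlt (by omega) (W.c_mono h0 hT hc))
        (w.frz c0.1 c0.2.1 c.2.1 hd (by omega) u2 ⟨i, le_rfl, hlt⟩) (by omega)
      rw [e, show (W.st τ i).1 = x by omega]
      exact anc x hx
  · have a1 : ¬ W.c τ0 (W.st τ i).2.1 := fun hc => W.r_unc hT hlt (W.c_mono h0 hT hc)
    rcases lam_cases hM L (W.st τ i).2.1 with ⟨u, u1, u2⟩ | ⟨e, e0 | ⟨u, u1, u2⟩⟩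
    · have hl : (W.st τ i).1 < u * M + L := by
        by_contra hn
        exact hne (by rw [lam_J hL u1 u2, lam_J hL (x := (W.st τ i).1) (u := u) (by omega)
          (by omega)])
      have a2 : W.c τ (u * M + L - 1) := ⟨i, by omega, by omega⟩
      rw [lam_J hL u1 u2]
      by_cases b : W.c τ0 (u * M + L - 1)
      · obtain ⟨x, hx, x1, x2⟩ := W.rend b a1 (by omega)
        exact mem_Nset (j := 0) hL (Finset.mem_union_left _ hx) (by omega) (by omega)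
          (Nat.zero_le _)
      · have hex : ¬ Mp ∣ u * M := fun hd =>
          b (w.frz c0.1 c0.2.1 c.2.1 hd (by omega) (by omega) a2)
        exact (w.locU c0 c1 hB ((w.mem_X c1.2.1).mpr
          ⟨fun hc => b (c0.2.2 u hex _ _ le_rfl (by omega) (by omega) (by omega) hc),
            W.c_mono h1 hT1 (c.2.2 u hex _ _ (by omega) (by omega) le_rfl (by omega) a2)⟩)).1
    · omega
    · have hd : Mp ∣ u * M := by
        by_contra hv
        have := (w.notint c hv hlt).2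
        omega
      obtain ⟨x, hx, x1, x2⟩ := W.rend (t := τ0) (a := (W.st τ i).2.1 - 1) (b := (W.st τ i).2.1)
        (w.frz c0.1 c0.2.1 c.2.1 hd (by omega) (by omega) ⟨i, by omega, by omega⟩) a1 (by omega)
      rw [e, show (W.st τ i).2.1 = x by omega]
      exact anc x hx

/-- the entry does not see the node `p` -/
def Off (M L p : ℕ) (q : Ent G) : Prop :=
  lam M L q.1 = lam M L q.2.1 ∨ (Free M L p (lam M L q.1) ∧ Free M L p (lam M L q.2.1))

theorem Win.ind (w : W.Win Mp M L t0 t1) {τ u : ℕ} (c : W.Cl Mp M L t0 t1 τ)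
    (e1 : ¬ Mp ∣ u * M) (e2 : ¬ Mp ∣ (u + 1) * M) (a1 : ¬ W.c τ (u * M))
    (a2 : ¬ W.c τ ((u + 1) * M)) (i : Fin k) : Off M L u (W.st τ i) := by
  have hL := w.hL
  have hM : 0 < M := w.hL.trans_le w.hLM
  rcases (W.le τ (c.2.1.trans w.h1) i).1.eq_or_lt with h | h
  · exact Or.inl (by rw [h])
  have n1 := w.notint c e1 h
  have n2 := w.notint c e2 h
  have b1 : ¬ ((W.st τ i).1 ≤ u * M ∧ u * M < (W.st τ i).2.1) := fun h => a1 ⟨i, h⟩
  have b2 : ¬ ((W.st τ i).1 ≤ (u + 1) * M ∧ (u + 1) * M < (W.st τ i).2.1) := fun h => a2 ⟨i, h⟩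
  by_cases d1 : (W.st τ i).1 ≤ u * M
  · exact Or.inr ⟨free_lo hL hM d1, free_lo hL hM (by omega)⟩
  by_cases d2 : (W.st τ i).1 ≤ (u + 1) * M
  · exact Or.inl (by rw [lam_J hL (u := u) (by omega) d2,
      lam_J hL (x := (W.st τ i).2.1) (u := u) (by omega) (by omega)])
  · exact Or.inr ⟨free_hi hL hM (by omega), free_hi hL hM (by omega)⟩

theorem Win.det (w : W.Win Mp M L t0 t1) {τ u : ℕ} (c : W.Cl Mp M L t0 t1 τ)
    (e1 : ¬ Mp ∣ u * M) (e2 : ¬ Mp ∣ (u + 1) * M)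
    (a : (W.c τ (u * M) ∧ ¬ W.c τ ((u + 1) * M)) ∨ (¬ W.c τ (u * M) ∧ W.c τ ((u + 1) * M))) :
    (∃ x ∈ W.ends τ, nd M x = u) ∧
    ∃ i, ((lam M L (W.st τ i).1 = (u + 1) * M ∧ Free M L u (lam M L (W.st τ i).2.1)) ∨
      (Free M L u (lam M L (W.st τ i).1) ∧ lam M L (W.st τ i).2.1 = (u + 1) * M)) ∧
      ∀ j, j ≠ i → Off M L u (W.st τ j) := by
  have hL := w.hL
  have hM : 0 < M := w.hL.trans_le w.hLM
  have hT := c.2.1.trans w.h1
  have hJ : u * M + L ≤ (u + 1) * M := by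
    have := w.hLM
    rw [add_mul]
    omega
  rcases a with ⟨a1, a2⟩ | ⟨a1, a2⟩
  · have a3 : W.c τ (u * M + L - 1) := c.2.2 u e1 _ _ le_rfl (by omega) (by omega) (by omega) a1
    obtain ⟨x, hx, x1, x2⟩ := W.rend a3 a2 (by omega)
    refine ⟨⟨x, hx, nd_eq (by omega) x2⟩, ?_⟩
    obtain ⟨i, i1, i2⟩ := a3
    have b2 : ∀ j, ¬ ((W.st τ j).1 ≤ (u + 1) * M ∧ (u + 1) * M < (W.st τ j).2.1) :=
      fun j h => a2 ⟨j, h⟩
    have hi : (W.st τ i).1 < (W.st τ i).2.1 := by omega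
    have n1 := w.notint c e1 hi
    have b3 := b2 i
    refine ⟨i, Or.inr ⟨free_lo hL hM (by omega), lam_J hL (by omega) (by omega)⟩, fun j hj => ?_⟩
    rcases (W.le τ hT j).1.eq_or_lt with h | h
    · exact Or.inl (by rw [h])
    have n2 := w.notint c e2 h
    have b4 := b2 j
    rcases W.disj τ hT j i hj h hi with d | d
    · exact Or.inr ⟨free_lo hL hM (by omega), free_lo hL hM (by omega)⟩
    · by_cases d2 : (W.st τ j).1 ≤ (u + 1) * M
      · exact Or.inl (by rw [lam_J hL (u := u) (by omega) d2,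
          lam_J hL (x := (W.st τ j).2.1) (u := u) (by omega) (by omega)])
      · exact Or.inr ⟨free_hi hL hM (by omega), free_hi hL hM (by omega)⟩
  · have a3 : ¬ W.c τ (u * M + L - 1) := fun h =>
      a1 (c.2.2 u e1 _ _ (by omega) (by omega) le_rfl (by omega) h)
    obtain ⟨x, hx, x1, x2⟩ := W.lend a3 a2 (by omega)
    refine ⟨⟨x, hx, nd_eq (by omega) x2⟩, ?_⟩
    obtain ⟨i, i1, i2⟩ := a2
    have b2 : ∀ j, ¬ ((W.st τ j).1 ≤ u * M + L - 1 ∧ u * M + L - 1 < (W.st τ j).2.1) :=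
      fun j h => a3 ⟨j, h⟩
    have hi : (W.st τ i).1 < (W.st τ i).2.1 := by omega
    have n1 := w.notint c e2 hi
    have b3 := b2 i
    refine ⟨i, Or.inl ⟨lam_J hL (by omega) i1, free_hi hL hM (by omega)⟩, fun j hj => ?_⟩
    rcases (W.le τ hT j).1.eq_or_lt with h | h
    · exact Or.inl (by rw [h])
    have n2 := w.notint c e1 h
    have b4 := b2 j
    rcases W.disj τ hT j i hj h hi with d | d
    · by_cases d2 : (W.st τ j).2.1 ≤ u * M
      · exact Or.inr ⟨free_lo hL hM (by omega), free_lo hL hM d2⟩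
      · exact Or.inl (by rw [lam_J hL (x := (W.st τ j).1) (u := u) (by omega) (by omega),
          lam_J hL (x := (W.st τ j).2.1) (u := u) (by omega) (by omega)])
    · exact Or.inr ⟨free_hi hL hM (by omega), free_hi hL hM (by omega)⟩

theorem scen {B β : ℕ} (hL : 0 < L) (hLM : L ≤ M) (hB : 4 * k * (2 * k * β + 4 * k) + 4 * k < B)
    (h : W.NoWin Mp M L B) :
    ∃ (τ0 τ1 : ℕ) (θ p : Fin β → ℕ), τ0 ≤ W.T ∧ τ1 ≤ W.T ∧
      (∀ i, θ i ≤ W.T ∧ 1 ≤ p i ∧ p i ≤ n) ∧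
      (∀ i j, lam M L (W.st (θ i) j).1 ≠ lam M L (W.st (θ i) j).2.1 →
        lam M L (W.st (θ i) j).1 ∈ Nset M B (W.ends τ0 ∪ W.ends τ1) ∧
        lam M L (W.st (θ i) j).2.1 ∈ Nset M B (W.ends τ0 ∪ W.ends τ1)) ∧
      (∀ i, ∃ j, ((lam M L (W.st (θ i) j).1 = (p i + 1) * M ∧
          Free M L (p i) (lam M L (W.st (θ i) j).2.1)) ∨
        (Free M L (p i) (lam M L (W.st (θ i) j).1) ∧
          lam M L (W.st (θ i) j).2.1 = (p i + 1) * M)) ∧
        ∀ j', j' ≠ j → Off M L (p i) (W.st (θ i) j')) ∧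
      ∀ i i', i < i' → ∀ j, Off M L (p i') (W.st (θ i) j) := by
  obtain ⟨t0, t1, h01, h1, hfr, ⟨u0, hb⟩, hsw⟩ := h
  have w : W.Win Mp M L t0 t1 := ⟨hL, hLM, h1, hfr, hsw⟩
  obtain ⟨τ0, τ1, c0, c1, m0, lo, hi⟩ := w.range h01 (by omega) hb
  have hθ : ∀ u, ∃ s, u ∈ W.X M τ0 τ1 → W.Cl Mp M L t0 t1 s ∧ τ0 < s ∧ s ≤ τ1 ∧
      ∀ τ, W.Cl Mp M L t0 t1 τ → (W.c τ (u * M) ↔ s ≤ τ) := fun u => by
    by_cases hu : u ∈ W.X M τ0 τ1
    · obtain ⟨u1, u2⟩ := (w.mem_X c1.2.1).mp hu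
      have ex : ∃ τ, W.Cl Mp M L t0 t1 τ ∧ W.c τ (u * M) := ⟨τ1, c1, u2⟩
      obtain ⟨s1, s2⟩ := Nat.find_spec ex
      exact ⟨Nat.find ex, fun _ => ⟨s1, lt_of_le_of_ne (m0 _ s1) fun e => u1 (e ▸ s2),
        Nat.find_min' ex ⟨c1, u2⟩, fun τ cτ => ⟨fun hc => Nat.find_min' ex ⟨cτ, hc⟩,
          fun hs => W.c_mono hs (cτ.2.1.trans h1) s2⟩⟩⟩
    · exact ⟨0, fun h => absurd h hu⟩
  choose θ hθ using hθ
  set U := W.X M τ0 τ1 with hU
  have hex : ∀ u ∈ U, ¬ Mp ∣ u * M := fun u hu hd => by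
    obtain ⟨u1, u2⟩ := (w.mem_X c1.2.1).mp hu
    exact u1 (w.frz c0.1 c0.2.1 c1.2.1 hd le_rfl (by omega) u2)
  have k1 : U.card ≤ 4 * k * (U.image θ).card := by
    refine Finset.card_le_mul_card_image U (4 * k) fun s hs => ?_
    obtain ⟨v, hv, rfl⟩ := Finset.mem_image.mp hs
    obtain ⟨v1, v2, _, _⟩ := hθ v hv
    obtain ⟨τ, p1, _, p3, p4⟩ := prev c0 v2
    refine le_trans (Finset.card_le_card fun u hu => ?_) (w.stepc p1 v1 p4)
    obtain ⟨u1, u2⟩ := Finset.mem_filter.mp hu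
    have := (hθ u u1).2.2.2
    exact (w.mem_X v1.2.1).mpr ⟨fun hc => by have := (this τ p1).mp hc; omega,
      (this _ v1).mpr u2.le⟩
  set Fr := U.filter fun u => u + 1 ∈ U ∧ θ u ≠ θ (u + 1) with hFr
  have k2 : (U.image θ).card ≤ 4 * k + Fr.card := by
    have hsub : U.image θ ⊆ (U.filter (fun u => u + 1 ∉ U) ∪ Fr).image θ := by
      intro s hs
      obtain ⟨v, hv, rfl⟩ := Finset.mem_image.mp hs
      obtain ⟨u, hu, hmax⟩ := Finset.exists_max_image (U.filter fun u => θ u = θ v) id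
        ⟨v, Finset.mem_filter.mpr ⟨hv, rfl⟩⟩
      obtain ⟨u1, u2⟩ := Finset.mem_filter.mp hu
      refine Finset.mem_image.mpr ⟨u, ?_, u2⟩
      by_cases hn : u + 1 ∈ U
      · refine Finset.mem_union_right _ (Finset.mem_filter.mpr ⟨u1, hn, fun e => ?_⟩)
        have := hmax (u + 1) (Finset.mem_filter.mpr ⟨hn, e ▸ u2⟩)
        simp at this
      · exact Finset.mem_union_left _ (Finset.mem_filter.mpr ⟨u1, hn⟩)
    have h2 : (U.filter fun u => u + 1 ∉ U).card ≤ 4 * k := by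
      refine (card_le_of_img (nd M) fun u hu => ?_).trans (card_ends2 (W := W) τ0 τ1)
      obtain ⟨u1, u2⟩ := Finset.mem_filter.mp hu
      rcases w.near c0 c1 u1 with ⟨x, hx, x1, x2⟩ | h
      · exact ⟨x, hx, nd_eq (by omega) x2⟩
      · exact absurd h.2 u2
    have := ((Finset.card_le_card hsub).trans Finset.card_image_le).trans
      (Finset.card_union_le _ _)
    omega
  have hFr' : ∀ u ∈ Fr, W.Cl Mp M L t0 t1 (min (θ u) (θ (u + 1))) ∧ τ0 ≤ min (θ u) (θ (u + 1)) ∧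
      min (θ u) (θ (u + 1)) ≤ τ1 ∧ ¬ Mp ∣ u * M ∧ ¬ Mp ∣ (u + 1) * M ∧ u ≤ n ∧
      ((W.c (min (θ u) (θ (u + 1))) (u * M) ∧ ¬ W.c (min (θ u) (θ (u + 1))) ((u + 1) * M)) ∨
        (¬ W.c (min (θ u) (θ (u + 1))) (u * M) ∧ W.c (min (θ u) (θ (u + 1))) ((u + 1) * M))) ∧
      ∀ τ, W.Cl Mp M L t0 t1 τ → τ < min (θ u) (θ (u + 1)) →
        ¬ W.c τ (u * M) ∧ ¬ W.c τ ((u + 1) * M) := fun u hu => by
    obtain ⟨u1, u2, u3⟩ := Finset.mem_filter.mp hu
    obtain ⟨a1, a2, a3, a4⟩ := hθ u u1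
    obtain ⟨b1, b2, b3, b4⟩ := hθ _ u2
    have cm : W.Cl Mp M L t0 t1 (min (θ u) (θ (u + 1))) := by
      rcases min_choice (θ u) (θ (u + 1)) with e | e <;> rw [e] <;> assumption
    refine ⟨cm, by omega, by omega, hex u u1, hex _ u2,
      Nat.lt_succ_iff.mp (Finset.mem_range.mp (Finset.mem_filter.mp u1).1), ?_, fun τ cτ hτ => ?_⟩
    · rw [a4 _ cm, b4 _ cm]
      omega
    · rw [a4 _ cτ, b4 _ cτ]
      omega
  have k3 : Fr.card ≤ 2 * k * (Fr.image fun u => min (θ u) (θ (u + 1))).card := by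
    refine Finset.card_le_mul_card_image Fr (2 * k) fun s _ => ?_
    refine (card_le_of_img (nd M) fun u hu => ?_).trans (W.card_ends s)
    obtain ⟨u1, u2⟩ := Finset.mem_filter.mp hu
    obtain ⟨a1, _, _, a4, a5, _, a7, _⟩ := hFr' u u1
    exact u2 ▸ (w.det a1 a4 a5 a7).1
  have k4 : β ≤ (Fr.image fun u => min (θ u) (θ (u + 1))).card := by
    have j1 : 2 * k * β + 4 * k < (U.image θ).card :=
      Nat.lt_of_mul_lt_mul_left (a := 4 * k) (by omega)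
    exact (Nat.lt_of_mul_lt_mul_left (a := 2 * k) (by omega)).le
  have hp : ∀ i : Fin β, ∃ u ∈ Fr, min (θ u) (θ (u + 1)) = Finset.orderEmbOfCardLe _ k4 i :=
    fun i => Finset.mem_image.mp (Finset.orderEmbOfCardLe_mem _ k4 i)
  choose p hp1 hp2 using hp
  refine ⟨τ0, τ1, fun i => min (θ (p i)) (θ (p i + 1)), p, c0.2.1.trans h1, c1.2.1.trans h1,
    fun i => ?_, fun i j hne => ?_, fun i => ?_, fun i i' hii j => ?_⟩
  · obtain ⟨a1, _, _, a4, _, a6, _⟩ := hFr' _ (hp1 i)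
    refine ⟨a1.2.1.trans h1, Nat.pos_of_ne_zero fun e => a4 ?_, a6⟩
    rw [e, zero_mul]
    exact dvd_zero _
  · obtain ⟨a1, a2, a3, _⟩ := hFr' _ (hp1 i)
    exact w.loc c0 c1 a1 a2 a3 hi j hne
  · obtain ⟨a1, _, _, a4, a5, _, a7, _⟩ := hFr' _ (hp1 i)
    exact (w.det a1 a4 a5 a7).2
  · obtain ⟨_, _, _, a4, a5, _, _, a8⟩ := hFr' _ (hp1 i')
    have b1 := (hFr' _ (hp1 i)).1
    have := a8 _ b1 (by rw [hp2 i, hp2 i']; exact (Finset.orderEmbOfCardLe _ k4).strictMono hii)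
    exact w.ind b1 a4 a5 this.1 this.2 j

end Sweep

end Pool.Agent.P.MP_f04817_lc
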