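import Pool.Agent.P.MP_f04817_lc.Nb2

/-! The family of loops and the counting lemma. -/

set_option autoImplicit false

namespace Pool.Agent.P.MP_f04817_lc

open scoped Classical

variable {G : Type} [Group G]

theorem ball_finite (S : Finset G) (n : ℕ) :
    {g : G | ∃ w : List G, (∀ x ∈ w, x ∈ S) ∧ w.length ≤ n ∧ w.prod = g}.Finite := by
  induction n with
  | zero =>
    refine (Set.finite_singleton 1).subset ?_
    rintro g ⟨w, _, h, rfl⟩
    rw [List.length_eq_zero_iff.mp (Nat.le_zero.mp h)]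
    rfl
  | succ n ih =>
    refine ((Set.Finite.image2 (· * ·) S.finite_toSet ih).insert 1).subset ?_
    rintro g ⟨w, h1, h2, rfl⟩
    cases w with
    | nil => exact Set.mem_insert _ _
    | cons a w =>
      exact Set.mem_insert_of_mem _ ⟨a, h1 a List.mem_cons_self, w.prod,
        ⟨w, fun x hx => h1 x (List.mem_cons_of_mem _ hx), by simpa using h2, rfl⟩, by simp⟩

theorem exists_path [Infinite G] (S : Finset G) (h1 : 1 ∈ S)
    (hS : Submonoid.closure (S : Set G) = ⊤) (l : ℕ) :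
    ∃ γ : ℕ → G, γ 0 = 1 ∧ (∀ i, (γ i)⁻¹ * γ (i + 1) ∈ S) ∧
      ∀ i j, i < l → j < l → γ i = γ j → i = j := by
  obtain ⟨g, hg⟩ := (ball_finite S l).exists_notMem
  have ex : ∃ n, ∃ w : List G, (∀ x ∈ w, x ∈ S) ∧ w.length = n ∧ w.prod = g := by
    obtain ⟨w, w1, w2⟩ := Submonoid.exists_list_of_mem_closure
      (show g ∈ Submonoid.closure (S : Set G) by rw [hS]; trivial)
    exact ⟨_, w, w1, rfl, w2⟩
  obtain ⟨w, w1, w2, w3⟩ := Nat.find_spec ex
  have hl : l < w.length := by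
    by_contra hn
    exact hg ⟨w, w1, by omega, w3⟩
  have key : ∀ i j, i < j → j < l → (w.take i).prod ≠ (w.take j).prod := by
    intro i j ij jl e
    refine Nat.find_min ex (m := (w.take i ++ w.drop j).length) ?_
      ⟨w.take i ++ w.drop j, fun x hx => ?_, rfl, ?_⟩
    · rw [← w2, List.length_append, List.length_take, List.length_drop]
      omega
    · rcases List.mem_append.mp hx with h | h
      · exact w1 x (List.mem_of_mem_take h)
      · exact w1 x (List.mem_of_mem_drop h)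
    · rw [List.prod_append, e, ← List.prod_append, List.take_append_drop, w3]
  refine ⟨fun i => (w.take i).prod, by simp, fun i => ?_, fun i j hi hj e => ?_⟩
  · by_cases h : i < w.length
    · simp only [List.prod_take_succ w i h, inv_mul_cancel_left]
      exact w1 _ (List.getElem_mem h)
    · simp only [List.take_of_length_le (show w.length ≤ i by omega),
        List.take_of_length_le (show w.length ≤ i + 1 by omega), inv_mul_cancel]
      exact h1
  · rcases lt_trichotomy i j with h | h | h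
    · exact absurd e (key i j h hj)
    · exact h
    · exact absurd e.symm (key j i h hi)

/-- the distance to the multiples of `M` -/
def dst (M y : ℕ) : ℕ := min (y % M) (M - y % M)

theorem dst_mono {M M' : ℕ} (hM : 0 < M) (h : M' ∣ M) (y : ℕ) : dst M' y ≤ dst M y := by
  unfold dst
  rw [← Nat.mod_mod_of_dvd y h]
  have ht := Nat.mod_lt y hM
  generalize y % M = t at ht
  obtain ⟨c, rfl⟩ := h
  have h1 := Nat.mod_le t M'
  have h2 := Nat.div_add_mod t M'
  have h3 : t / M' < c := Nat.div_lt_of_lt_mul ht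
  have h4 : M' * (t / M' + 1) ≤ M' * c := Nat.mul_le_mul_left _ h3
  rw [mul_add] at h4
  omega

theorem mod_step {M : ℕ} (hM : 0 < M) (y : ℕ) :
    ((y + 1) % M = y % M + 1 ∧ (y + 1) / M = y / M) ∨ ((y + 1) % M = 0 ∧ y % M + 1 = M) := by
  have h1 := Nat.mod_lt y hM
  have h2 := Nat.div_add_mod y M
  by_cases h : y % M + 1 = M
  · refine Or.inr ⟨?_, h⟩
    have : y + 1 = M * (y / M + 1) := by
      rw [mul_add]
      omega
    rw [this, Nat.mul_mod_right]
  · have := (Nat.div_mod_unique (a := y + 1) (d := y / M) (c := y % M + 1) hM).mpr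
      ⟨by omega, by omega⟩
    exact Or.inl ⟨this.2, this.1⟩

/-- the height of the component of depth `d` at the vertex `x` -/
def cp (M : ℕ → ℕ) (h l : ℕ) (r : ℕ × ℕ → ℕ) (x d : ℕ) : ℕ :=
  min (r (d, (x - h) / M d)) (dst (M d) (x - h) - d * l)

/-- the product of `s` components from depth `d` on -/
def PP (γ : ℕ → G) (a : ℕ → ℕ) : ℕ → ℕ → G
  | 0, _ => 1
  | s + 1, d => γ (a d) * PP γ a s (d + 1)

theorem PP_congr (γ : ℕ → G) {a b : ℕ → ℕ} (s d : ℕ) (h : ∀ j, d ≤ j → j < d + s → a j = b j) :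
    PP γ a s d = PP γ b s d := by
  induction s generalizing d with
  | zero => rfl
  | succ s ih =>
    simp only [PP]
    rw [h d le_rfl (by omega), ih (d + 1) fun j h1 h2 => h j (by omega) (by omega)]

theorem PP_zero {γ : ℕ → G} (h0 : γ 0 = 1) {a : ℕ → ℕ} (s d : ℕ) (h : ∀ j, d ≤ j → a j = 0) :
    PP γ a s d = 1 := by
  induction s generalizing d with
  | zero => rfl
  | succ s ih =>
    simp only [PP]
    rw [h d le_rfl, h0, one_mul, ih (d + 1) fun j h1 => h j (by omega)]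

theorem PP_add (γ : ℕ → G) (a : ℕ → ℕ) (s t d : ℕ) :
    PP γ a (s + t) d = PP γ a s d * PP γ a t (d + s) := by
  induction s generalizing d with
  | zero => simp [PP]
  | succ s ih =>
    rw [show s + 1 + t = (s + t) + 1 by omega]
    simp only [PP]
    rw [ih, mul_assoc, show d + 1 + s = d + (s + 1) by omega]

/-- the possible values of such products -/
noncomputable def EE (γ : ℕ → G) (R : ℕ → ℕ) : ℕ → ℕ → Finset G
  | 0, _ => {1}
  | s + 1, d => Finset.image₂ (fun i g => γ i * g) (Finset.range (R d)) (EE γ R s (d + 1))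

theorem PP_mem (γ : ℕ → G) {R a : ℕ → ℕ} (h : ∀ j, a j < R j) (s d : ℕ) :
    PP γ a s d ∈ EE γ R s d := by
  induction s generalizing d with
  | zero => exact Finset.mem_singleton_self _
  | succ s ih => exact Finset.mem_image₂_of_mem (Finset.mem_range.mpr (h d)) (ih (d + 1))

/-- the loop -/
def ZZ (γ : ℕ → G) (M : ℕ → ℕ) (h l m : ℕ) (r : ℕ × ℕ → ℕ) (x : ℕ) : G :=
  PP γ (cp M h l r x) (m + 1) 0

/-- the conditions on the parameters -/
structure Par (M R : ℕ → ℕ) (h l m : ℕ) : Prop where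
  dv : ∀ i j, i ≤ j → M j ∣ M i
  hM : ∀ d, 2 * h ≤ M d
  hh : h = (m + 1) * l
  hl : 0 < l
  hR : ∀ d ≤ m, R d ≤ l

variable {M R : ℕ → ℕ} {h l m : ℕ} {γ : ℕ → G} {r : ℕ × ℕ → ℕ}

theorem Par.h0 (P : Par M R h l m) : 0 < h := by
  rw [P.hh]
  exact Nat.mul_pos (Nat.succ_pos _) P.hl

theorem Par.M0 (P : Par M R h l m) (d : ℕ) : 0 < M d := by
  have := P.h0
  have := P.hM d
  omega

theorem Par.cp_step (P : Par M R h l m) (hr : ∀ q, r q < R q.1) (x : ℕ) {d : ℕ} (hd : d ≤ m) :
    cp M h l r x d = cp M h l r (x + 1) d ∨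
      ((cp M h l r (x + 1) d = cp M h l r x d + 1 ∨ cp M h l r x d = cp M h l r (x + 1) d + 1) ∧
        ∀ j, d + 1 ≤ j → cp M h l r x j = 0 ∧ cp M h l r (x + 1) j = 0) := by
  by_cases hx : x < h
  · left
    unfold cp
    rw [show x + 1 - h = x - h by omega]
  by_cases e : cp M h l r x d = cp M h l r (x + 1) d
  · exact Or.inl e
  have hl := P.hl
  have k : (cp M h l r (x + 1) d = cp M h l r x d + 1 ∨ cp M h l r x d = cp M h l r (x + 1) d + 1) ∧
      dst (M d) (x - h) ≤ d * l + l ∧ dst (M d) (x + 1 - h) ≤ d * l + l := by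
    unfold cp dst at e ⊢
    rw [show x + 1 - h = x - h + 1 by omega] at e ⊢
    have h1 := hr (d, (x - h) / M d)
    have h2 := P.hR d hd
    simp only at h1
    rcases mod_step (P.M0 d) (x - h) with ⟨a1, a2⟩ | ⟨a1, a2⟩
    · rw [a1, a2] at e ⊢
      omega
    · rw [a1] at e ⊢
      omega
  refine Or.inr ⟨k.1, fun j hj => ?_⟩
  have a1 := dst_mono (P.M0 d) (P.dv d j (by omega)) (x - h)
  have a2 := dst_mono (P.M0 d) (P.dv d j (by omega)) (x + 1 - h)
  have a3 : (d + 1) * l ≤ j * l := Nat.mul_le_mul_right _ hj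
  rw [add_mul] at a3
  unfold cp
  omega

theorem Par.loop (P : Par M R h l m) (hr : ∀ q, r q < R q.1) {S : Finset G} (h1 : 1 ∈ S)
    (hS : ∀ x ∈ S, x⁻¹ ∈ S) (g0 : γ 0 = 1) (g1 : ∀ i, (γ i)⁻¹ * γ (i + 1) ∈ S) :
    Loop (S : Set G) (ZZ γ M h l m r) (M 0 + h) := by
  refine ⟨PP_zero g0 _ _ fun j _ => by simp [cp, dst], PP_zero g0 _ _ fun j _ => ?_, fun x _ => ?_⟩
  · simp [cp, dst, Nat.mod_eq_zero_of_dvd (P.dv 0 j (Nat.zero_le _))]
  · have : ∀ s d, d + s = m + 1 →
        (PP γ (cp M h l r x) s d)⁻¹ * PP γ (cp M h l r (x + 1)) s d ∈ S := by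
      intro s
      induction s with
      | zero => exact fun d _ => by simpa [PP] using h1
      | succ s ih =>
        intro d hd
        simp only [PP]
        rcases P.cp_step hr x (d := d) (by omega) with e | ⟨e, z⟩
        · rw [← e, mul_inv_rev, mul_assoc, inv_mul_cancel_left]
          exact ih (d + 1) (by omega)
        · rw [PP_zero g0 s (d + 1) fun j hj => (z j hj).1,
            PP_zero g0 s (d + 1) fun j hj => (z j hj).2, mul_one, mul_one]
          rcases e with e | e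
          · rw [e]
            exact g1 _
          · have := hS _ (g1 (cp M h l r (x + 1) d))
            rwa [mul_inv_rev, inv_inv, ← e] at this
    exact this (m + 1) 0 (by omega)

theorem Par.cp_J (P : Par M R h l m) (hr : ∀ q, r q < R q.1) {δ u x d : ℕ} (hδ : δ ≤ m)
    (h1 : u * M δ + 2 * h ≤ x) (h2 : x ≤ (u + 1) * M δ) (hd : d ≤ δ) :
    cp M h l r x d = r (d, u * M δ / M d) := by
  have h0 := P.h0
  have q : (x - h) / M δ = u := Nat.div_eq_of_lt_le (by omega) (by omega)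
  have a1 : h ≤ dst (M δ) (x - h) := by
    have := Nat.div_add_mod (x - h) (M δ)
    rw [q, mul_comm] at this
    rw [add_mul] at h2
    unfold dst
    omega
  have a2 := dst_mono (P.M0 d) (P.dv d δ hd) (x - h)
  have a3 : (d + 1) * l ≤ (m + 1) * l := Nat.mul_le_mul_right _ (by omega)
  rw [← P.hh, add_mul] at a3
  have a4 : (x - h) / M d = u * M δ / M d := by
    obtain ⟨c, hc⟩ := P.dv d δ hd
    rw [hc, ← Nat.div_div_eq_div_mul, ← Nat.div_div_eq_div_mul, q,
      Nat.mul_div_cancel _ (P.M0 δ)]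
  have a5 := hr (d, u * M δ / M d)
  have a6 := P.hR d (by omega)
  simp only at a5
  unfold cp
  rw [a4]
  omega

theorem ZZ_split (γ : ℕ → G) (M : ℕ → ℕ) (h l : ℕ) (r : ℕ × ℕ → ℕ) (x : ℕ) {δ : ℕ} (hδ : δ ≤ m) :
    ZZ γ M h l m r x = PP γ (cp M h l r x) δ 0 * γ (cp M h l r x δ) *
      PP γ (cp M h l r x) (m - δ) (δ + 1) := by
  unfold ZZ
  rw [show m + 1 = δ + ((m - δ) + 1) by omega, PP_add, zero_add, mul_assoc]
  rfl

/-- the quotients of two values on one node -/
noncomputable def FF (γ : ℕ → G) (R : ℕ → ℕ) (m δ : ℕ) : Finset G :=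
  Finset.image₂ (fun a b => a⁻¹ * b) (EE γ R (m - δ) (δ + 1)) (EE γ R (m - δ) (δ + 1))

theorem cp_lt (hr : ∀ q, r q < R q.1) (x j : ℕ) : cp M h l r x j < R j :=
  (min_le_left _ _).trans_lt (hr _)

theorem Par.J_mem (P : Par M R h l m) (hr : ∀ q, r q < R q.1) {δ u x x' : ℕ} (hδ : δ ≤ m)
    (h1 : u * M δ + 2 * h ≤ x) (h2 : x ≤ (u + 1) * M δ) (h3 : u * M δ + 2 * h ≤ x')
    (h4 : x' ≤ (u + 1) * M δ) : (ZZ γ M h l m r x)⁻¹ * ZZ γ M h l m r x' ∈ FF γ R m δ := by
  have e : ∀ d ≤ δ, cp M h l r x d = cp M h l r x' d := fun d hd => by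
    rw [P.cp_J hr hδ h1 h2 hd, P.cp_J hr hδ h3 h4 hd]
  rw [ZZ_split γ M h l r x hδ, ZZ_split γ M h l r x' hδ,
    PP_congr γ δ 0 fun j _ hj => e j (by omega), e δ le_rfl, mul_inv_rev, mul_assoc,
    inv_mul_cancel_left]
  exact Finset.mem_image₂_of_mem (PP_mem γ (cp_lt hr x) _ _) (PP_mem γ (cp_lt hr x') _ _)

theorem Par.lam_mem (P : Par M R h l m) (hr : ∀ q, r q < R q.1) {δ : ℕ} (hδ : δ ≤ m) (x : ℕ) :
    (ZZ γ M h l m r x)⁻¹ * ZZ γ M h l m r (lam (M δ) (2 * h) x) ∈ FF γ R m δ ∧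
      (ZZ γ M h l m r (lam (M δ) (2 * h) x))⁻¹ * ZZ γ M h l m r x ∈ FF γ R m δ := by
  have h0 := P.h0
  rcases lam_cases (P.M0 δ) (2 * h) x with ⟨u, u1, u2⟩ | ⟨e, _⟩
  · rw [lam_J (by omega) u1 u2]
    exact ⟨P.J_mem hr hδ u1 u2 (by omega) le_rfl, P.J_mem hr hδ (by omega) le_rfl u1 u2⟩
  · rw [e, inv_mul_cancel, and_self]
    exact Finset.mem_image₂.mpr ⟨_, PP_mem γ (cp_lt (M := M) (h := h) (l := l) hr x) _ _, _,
      PP_mem γ (cp_lt (M := M) (h := h) (l := l) hr x) _ _, inv_mul_cancel _⟩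

theorem Par.free (P : Par M R h l m) {δ p x : ℕ} (hp : 1 ≤ p) (hx : Free (M δ) (2 * h) p x)
    (v : ℕ) : ZZ γ M h l m (Function.update r (δ, p) v) x = ZZ γ M h l m r x := by
  refine PP_congr γ _ _ fun j _ _ => ?_
  unfold cp
  rw [Function.update_of_ne]
  intro e
  obtain ⟨e1, e2⟩ := Prod.mk.inj e
  subst e1
  have h0 := P.h0
  have h1 := P.M0 j
  have a1 := Nat.div_mul_le_self (x - h) (M j)
  have a2 := Nat.lt_div_mul_add (a := x - h) h1
  have a3 : 1 * M j ≤ p * M j := Nat.mul_le_mul_right _ hp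
  rw [e2] at a1 a2
  unfold Free at hx
  rw [add_mul] at hx
  omega

theorem Par.ref (P : Par M R h l m) (hr : ∀ q, r q < R q.1) {δ : ℕ} (hδ : δ ≤ m) (p : ℕ) :
    ∃ A e : G, ∀ v < R δ,
      ZZ γ M h l m (Function.update r (δ, p) v) ((p + 1) * M δ) = A * γ v * e := by
  refine ⟨PP γ (cp M h l r ((p + 1) * M δ)) δ 0,
    PP γ (cp M h l r ((p + 1) * M δ)) (m - δ) (δ + 1), fun v hv => ?_⟩
  have e : ∀ j, j ≠ δ → cp M h l (Function.update r (δ, p) v) ((p + 1) * M δ) j =
      cp M h l r ((p + 1) * M δ) j := fun j hj => by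
    unfold cp
    rw [Function.update_of_ne fun e => hj (Prod.mk.inj e).1]
  have hr' : ∀ q, Function.update r (δ, p) v q < R q.1 := fun q => by
    rcases eq_or_ne q (δ, p) with rfl | hq
    · rwa [Function.update_self]
    · rw [Function.update_of_ne hq]
      exact hr q
  have hM := P.hM δ
  rw [ZZ_split γ M h l _ _ hδ, PP_congr γ δ 0 fun j _ hj => e j (by omega),
    PP_congr γ (m - δ) (δ + 1) fun j hj _ => e j (by omega),
    P.cp_J hr' (u := p) hδ (by rw [add_mul]; omega) le_rfl le_rfl,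
    Nat.mul_div_cancel _ (P.M0 δ), Function.update_self]

theorem ofFn_cancel {k : ℕ} (f g : Fin k → G) (j : Fin k)
    (e : (List.ofFn f).prod = (List.ofFn g).prod) (h : ∀ i, i ≠ j → f i = g i) : f j = g j := by
  induction k with
  | zero => exact j.elim0
  | succ k ih =>
    rw [List.ofFn_succ, List.ofFn_succ, List.prod_cons, List.prod_cons] at e
    refine Fin.cases (motive := fun j => (∀ i, i ≠ j → f i = g i) → f j = g j)
      (fun h => ?_) (fun j h => ?_) j h
    · rw [show (fun i : Fin k => f i.succ) = fun i => g i.succ from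
        funext fun i => h _ (Fin.succ_ne_zero i)] at e
      exact mul_right_cancel e
    · rw [h 0 (Fin.succ_ne_zero j).symm] at e
      exact ih (fun i => f i.succ) (fun i => g i.succ) j (mul_left_cancel e)
        fun i hi => h _ fun e => hi (Fin.succ_injective _ e)

theorem count {ι : Type} [DecidableEq ι] (Ω : Finset (ι → ℕ)) (N β : ℕ) (p : Fin β → ι)
    (A : Fin β → (ι → ℕ) → Prop) (hΩ : ∀ i, ∀ r ∈ Ω, ∀ v < N, Function.update r (p i) v ∈ Ω)
    (hr : ∀ i, ∀ r ∈ Ω, r (p i) < N)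
    (det : ∀ i, ∀ r ∈ Ω, ∀ v < N, ∀ w < N, A i (Function.update r (p i) v) →
      A i (Function.update r (p i) w) → v = w)
    (ind : ∀ i i', i < i' → ∀ r v, A i r → A i (Function.update r (p i') v)) :
    (Ω.filter fun r => ∀ i, A i r).card * N ^ β ≤ Ω.card := by
  have key : ∀ s ≤ β, (Ω.filter fun r => ∀ i : Fin β, i.val < s → A i r).card * N ^ s ≤ Ω.card := by
    intro s
    induction s with
    | zero => exact fun _ => by simp
    | succ s ih =>
      intro hs
      refine le_trans ?_ (ih (by omega))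
      rw [pow_succ', ← mul_assoc]
      refine Nat.mul_le_mul_right _ ?_
      rw [← Finset.card_range N, ← Finset.card_product]
      refine Finset.card_le_card_of_injOn (fun q => Function.update q.1 (p ⟨s, hs⟩) q.2)
        (fun q hq => ?_) (fun q hq q' hq' e => ?_)
      · obtain ⟨q1, q2⟩ := Finset.mem_product.mp hq
        obtain ⟨q3, q4⟩ := Finset.mem_filter.mp q1
        exact Finset.mem_filter.mpr ⟨hΩ _ _ q3 _ (Finset.mem_range.mp q2), fun i hi =>
          ind i ⟨s, hs⟩ hi _ _ (q4 i (by omega))⟩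
      · obtain ⟨q3, q4⟩ := Finset.mem_filter.mp (Finset.mem_product.mp hq).1
        obtain ⟨q5, q6⟩ := Finset.mem_filter.mp (Finset.mem_product.mp hq').1
        have e1 : q.2 = q'.2 := by simpa using congrFun e (p ⟨s, hs⟩)
        have e2 : Function.update q.1 (p ⟨s, hs⟩) (q'.1 (p ⟨s, hs⟩)) = q'.1 := by
          have := congrArg (fun f => Function.update f (p ⟨s, hs⟩) (q'.1 (p ⟨s, hs⟩))) e
          simpa using this
        have e3 := det ⟨s, hs⟩ q.1 q3 _ (hr _ _ q3) _ (hr _ _ q5)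
          (by rw [Function.update_eq_self]; exact q4 _ (Nat.lt_succ_self s))
          (by rw [e2]; exact q6 _ (Nat.lt_succ_self s))
        rw [← e3, Function.update_eq_self] at e2
        exact Prod.ext e2 e1
  refine le_trans (Nat.mul_le_mul_right _ (Finset.card_le_card fun r hr' => ?_)) (key β le_rfl)
  exact Finset.mem_filter.mpr ⟨(Finset.mem_filter.mp hr').1, fun i _ =>
    (Finset.mem_filter.mp hr').2 i⟩

theorem box_finite {ι : Type} (s : Finset ι) (b : ι → ℕ) :
    {r : ι → ℕ | (∀ q, r q < b q) ∧ ∀ q, q ∉ s → r q = 0}.Finite := by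
  refine Set.Finite.of_finite_image (f := fun r (q : s) => r q.1)
    ((Set.Finite.pi' fun q : s => Set.finite_lt_nat (b q.1)).subset ?_) fun r hr r' hr' e => ?_
  · rintro _ ⟨r, hr, rfl⟩ q
    exact hr.1 q
  · funext q
    by_cases hq : q ∈ s
    · exact congrFun e ⟨q, hq⟩
    · rw [hr.2 q hq, hr'.2 q hq]

end Pool.Agent.P.MP_f04817_lc
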