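import Pool.Agent.P.MP_f04817_lc.Nb3

/-! Coarse equations, the union bound and the choice of the parameters. -/

set_option autoImplicit false

namespace Pool.Agent.P.MP_f04817_lc

open scoped Classical

variable {G : Type} [Group G]

/-- the coarse entry does not see the node `p` -/
def Ofc (M L p : ℕ) (q : Ent G) : Prop :=
  q.1 = q.2.1 ∨ (Free M L p q.1 ∧ Free M L p q.2.1)

/-- a chain of coarse equations, each with a node that is new and seen once -/
def Valid {k β : ℕ} (M L n : ℕ) (σ : Fin β → ℕ × (Fin k → Ent G)) : Prop :=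
  (∀ i, 1 ≤ (σ i).1 ∧ (σ i).1 ≤ n ∧
    ∃ j, ((((σ i).2 j).1 = ((σ i).1 + 1) * M ∧ Free M L (σ i).1 ((σ i).2 j).2.1) ∨
      (Free M L (σ i).1 ((σ i).2 j).1 ∧ ((σ i).2 j).2.1 = ((σ i).1 + 1) * M)) ∧
      ∀ j', j' ≠ j → Ofc M L (σ i).1 ((σ i).2 j')) ∧
  ∀ i i', i < i' → ∀ j, Ofc M L (σ i').1 ((σ i).2 j)

/-- the space of the choices -/
noncomputable def Om (R : ℕ → ℕ) (m n : ℕ) : Finset (ℕ × ℕ → ℕ) :=
  (box_finite (Finset.range (m + 1) ×ˢ Finset.range (n + 1)) fun q => R q.1).toFinset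

theorem mem_Om {R : ℕ → ℕ} {m n : ℕ} {r : ℕ × ℕ → ℕ} : r ∈ Om R m n ↔ (∀ q, r q < R q.1) ∧
    ∀ q, q ∉ Finset.range (m + 1) ×ˢ Finset.range (n + 1) → r q = 0 := by
  unfold Om
  rw [Set.Finite.mem_toFinset]
  rfl

variable {M R : ℕ → ℕ} {h l m : ℕ} {γ : ℕ → G} {r : ℕ × ℕ → ℕ}

theorem Par.val_off (P : Par M R h l m) {δ p : ℕ} (hp : 1 ≤ p) {q : Ent G}
    (hq : Ofc (M δ) (2 * h) p q) (v : ℕ) :
    Ent.val (ZZ γ M h l m (Function.update r (δ, p) v)) q = Ent.val (ZZ γ M h l m r) q := by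
  unfold Ent.val
  rcases hq with e | ⟨a, b⟩
  · rw [e, inv_mul_cancel_right, inv_mul_cancel_right]
  · rw [P.free hp a, P.free hp b]

theorem Par.bad_one (P : Par M R h l m) (hγ : ∀ i j, i < l → j < l → γ i = γ j → i = j)
    {δ n k β : ℕ} (hδ : δ ≤ m) {σ : Fin β → ℕ × (Fin k → Ent G)} (hσ : Valid (M δ) (2 * h) n σ) :
    ((Om R m n).filter fun r => ∀ i, ev (ZZ γ M h l m r) (σ i).2 = 1).card * R δ ^ β ≤
      (Om R m n).card := by
  refine count (Om R m n) (R δ) β (fun i => (δ, (σ i).1))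
    (fun i r => ev (ZZ γ M h l m r) (σ i).2 = 1) (fun i r hr v hv => ?_)
    (fun i r hr => (mem_Om.mp hr).1 _) (fun i r hr v hv w hw e1 e2 => ?_)
    (fun i i' hii r v e => ?_)
  · obtain ⟨r1, r2⟩ := mem_Om.mp hr
    refine mem_Om.mpr ⟨fun q => ?_, fun q hq => ?_⟩
    · rcases eq_or_ne q (δ, (σ i).1) with rfl | hq
      · rwa [Function.update_self]
      · rw [Function.update_of_ne hq]
        exact r1 q
    · rw [Function.update_of_ne, r2 q hq]
      rintro rfl
      exact hq (Finset.mem_product.mpr ⟨Finset.mem_range.mpr (by omega),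
        Finset.mem_range.mpr (Nat.lt_succ_of_le (hσ.1 i).2.1)⟩)
  · obtain ⟨p1, _, j, hj, ho⟩ := hσ.1 i
    have e := ofFn_cancel _ _ j (e1.trans e2.symm) fun j' hj' =>
      (P.val_off p1 (ho j' hj') v).trans (P.val_off p1 (ho j' hj') w).symm
    obtain ⟨A, c, hA⟩ := P.ref (γ := γ) (mem_Om.mp hr).1 hδ (σ i).1
    have hR := P.hR δ hδ
    refine hγ v w (by omega) (by omega) ?_
    unfold Ent.val at e
    rcases hj with ⟨a, b⟩ | ⟨a, b⟩
    · rw [a, hA v hv, hA w hw, P.free p1 b, P.free p1 b] at e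
      simpa using e
    · rw [b, hA v hv, hA w hw, P.free p1 a, P.free p1 a] at e
      simpa using e
  · rw [← e]
    unfold ev
    congr 2
    exact funext fun j => P.val_off (hσ.1 i').1 (hσ.2 i i' hii j) v

/-- the coarse equations near the anchors -/
noncomputable def Sc (k β M B : ℕ) (An : Finset ℕ) (Y F : Finset G) :
    Finset (Fin β → ℕ × (Fin k → Ent G)) :=
  Fintype.piFinset fun _ => ((Nset M B An).image fun x => x / M - 1) ×ˢ
    Fintype.piFinset fun _ => Nset M B An ×ˢ Nset M B An ×ˢ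
      Finset.image₂ (· * ·) Y F ×ˢ Finset.image₂ (· * ·) F Y

theorem card_Sc (k β M B : ℕ) (An : Finset ℕ) (Y F : Finset G) {N f : ℕ}
    (hN : (Nset M B An).card ≤ N) (hF : F.card ≤ f) :
    (Sc k β M B An Y F).card ≤ (N * (N * (N * (Y.card * f * (f * Y.card)))) ^ k) ^ β := by
  unfold Sc
  rw [Fintype.card_piFinset_const, Finset.card_product, Fintype.card_piFinset_const,
    Finset.card_product, Finset.card_product, Finset.card_product]
  have h1 : ((Nset M B An).image fun x => x / M - 1).card ≤ N := Finset.card_image_le.trans hN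
  have h2 : (Finset.image₂ (· * ·) Y F).card ≤ Y.card * f :=
    (Finset.card_image₂_le _ _ _).trans (Nat.mul_le_mul_left _ hF)
  have h3 : (Finset.image₂ (· * ·) F Y).card ≤ f * Y.card :=
    (Finset.card_image₂_le _ _ _).trans (Nat.mul_le_mul_right _ hF)
  gcongr

/-- the ends of a family of arcs -/
def endsOf {k : ℕ} (f : Fin k → ℕ × ℕ) : Finset ℕ :=
  (Finset.univ.image fun i => (f i).1) ∪ Finset.univ.image fun i => (f i).2

theorem card_endsOf {k : ℕ} (f : Fin k → ℕ × ℕ) : (endsOf f).card ≤ 2 * k := by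
  have h1 : (Finset.univ.image fun i => (f i).1).card ≤ k := Finset.card_image_le.trans (by simp)
  have h2 : (Finset.univ.image fun i => (f i).2).card ≤ k := Finset.card_image_le.trans (by simp)
  exact (Finset.card_union_le _ _).trans (by omega)

/-- the families of arcs -/
def Arcs (k n : ℕ) : Finset (Fin k → ℕ × ℕ) :=
  Fintype.piFinset fun _ => Finset.range (n + 1) ×ˢ Finset.range (n + 1)

theorem Par.coarse (P : Par M R h l m) (hr : ∀ q, r q < R q.1) {δ n k K β B Mp : ℕ} (hδ : δ ≤ m)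
    {Y : Finset G} (W : Sweep k K Y (ZZ γ M h l m r) n)
    (hB : 4 * k * (2 * k * β + 4 * k) + 4 * k < B) (hW : W.NoWin Mp (M δ) (2 * h) B) :
    ∃ a ∈ Arcs k n ×ˢ Arcs k n, ∃ σ ∈ Sc k β (M δ) B (endsOf a.1 ∪ endsOf a.2) Y (FF γ R m δ),
      Valid (M δ) (2 * h) n σ ∧ ∀ i, ev (ZZ γ M h l m r) (σ i).2 = 1 := by
  have h0 := P.h0
  have hM := P.M0 δ
  obtain ⟨τ0, τ1, θ, p, t0, t1, hθ, loc, det, ind⟩ :=
    Sweep.scen (β := β) (by omega) (P.hM δ) hB hW
  have arc : ∀ τ ≤ W.T, (fun i => ((W.st τ i).1, (W.st τ i).2.1)) ∈ Arcs k n := fun τ hτ =>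
    Fintype.mem_piFinset.mpr fun i => by
      have := W.le τ hτ i
      exact Finset.mem_product.mpr ⟨Finset.mem_range.mpr (by simp only; omega),
        Finset.mem_range.mpr (by simp only; omega)⟩
  let z := ZZ γ M h l m r
  let la := lam (M δ) (2 * h)
  let co : Ent G → Ent G := fun q => (if la q.1 = la q.2.1 then 0 else la q.1,
    if la q.1 = la q.2.1 then 0 else la q.2.1, q.2.2.1 * ((z q.1)⁻¹ * z (la q.1)),
      (z (la q.2.1))⁻¹ * z q.2.1 * q.2.2.2)
  have hval : ∀ q, Ent.val z (co q) = Ent.val z q := fun q => by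
    simp only [co, Ent.val]
    split_ifs with e
    · rw [e]
      group
    · group
  have hoff : ∀ u q, Sweep.Off (M δ) (2 * h) u q → Ofc (M δ) (2 * h) u (co q) := fun u q hq => by
    simp only [co, Ofc]
    split_ifs with e
    · exact Or.inl rfl
    · exact Or.inr (hq.resolve_left e)
  have nf : ∀ u, ¬ Free (M δ) (2 * h) u ((u + 1) * M δ) := fun u => by
    unfold Free
    rw [add_mul]
    omega
  refine ⟨(_, _), Finset.mem_product.mpr ⟨arc τ0 t0, arc τ1 t1⟩,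
    fun i => (p i, fun j => co (W.st (θ i) j)), Fintype.mem_piFinset.mpr fun i =>
      Finset.mem_product.mpr ⟨?_, Fintype.mem_piFinset.mpr fun j => ?_⟩,
    ⟨fun i => ⟨(hθ i).2.1, (hθ i).2.2, ?_⟩, fun i i' hii j => hoff _ _ (ind i i' hii j)⟩,
    fun i => ?_⟩
  · obtain ⟨j, hj, _⟩ := det i
    refine Finset.mem_image.mpr ⟨(p i + 1) * M δ, ?_, by rw [Nat.mul_div_cancel _ hM]; rfl⟩
    rcases hj with ⟨a, b⟩ | ⟨a, b⟩
    · exact a ▸ (loc i j fun e => nf _ (by rwa [← e, a] at b)).1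
    · exact b ▸ (loc i j fun e => nf _ (by rwa [e, b] at a)).2
  · have hY := W.mem _ (hθ i).1 j
    refine Finset.mem_product.mpr ⟨?_, Finset.mem_product.mpr ⟨?_, Finset.mem_product.mpr
      ⟨Finset.mem_image₂_of_mem hY.1 (P.lam_mem hr hδ _).1,
        Finset.mem_image₂_of_mem (P.lam_mem hr hδ _).2 hY.2⟩⟩⟩
    · simp only [co]
      split_ifs with e
      · exact Finset.mem_insert_self _ _
      · exact (loc i j e).1
    · simp only [co]
      split_ifs with e
      · exact Finset.mem_insert_self _ _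
      · exact (loc i j e).2
  · obtain ⟨j, hj, ho⟩ := det i
    refine ⟨j, ?_, fun j' hj' => hoff _ _ (ho j' hj')⟩
    have e' : ¬ lam (M δ) (2 * h) (W.st (θ i) j).1 = lam (M δ) (2 * h) (W.st (θ i) j).2.1 := by
      rcases hj with ⟨a, b⟩ | ⟨a, b⟩
      · exact fun e => nf _ (by rwa [← e, a] at b)
      · exact fun e => nf _ (by rwa [e, b] at a)
    have e : ¬ la (W.st (θ i) j).1 = la (W.st (θ i) j).2.1 := e'
    simp only [co, if_neg e]
    exact hj
  · rw [← W.eqn _ (hθ i).1]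
    unfold ev
    congr 2
    exact funext fun j => hval _

theorem Par.union (P : Par M R h l m) (hγ : ∀ i j, i < l → j < l → γ i = γ j → i = j)
    {n k K β B N : ℕ} {Y : Finset G} (hR0 : ∀ d, 0 < R d)
    (hB : 4 * k * (2 * k * β + 4 * k) + 4 * k < B) (hN : 1 + 4 * k + 4 * k * (B + 1) ≤ N)
    (hR : ∀ δ ≤ m, ∃ f, (FF γ R m δ).card ≤ f ∧
      2 * (N * (N * (N * (Y.card * f * (f * Y.card)))) ^ k + 1) ≤ R δ)
    (hW : ∀ r, (∀ q, r q < R q.1) → ∃ W : Sweep k K Y (ZZ γ M h l m r) n, ∃ δ ≤ m, ∃ Mp,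
      W.NoWin Mp (M δ) (2 * h) B) :
    2 ^ β ≤ (m + 1) * (((n + 1) * (n + 1)) ^ k * ((n + 1) * (n + 1)) ^ k) := by
  let Bad : ℕ × (Fin k → ℕ × ℕ) × (Fin k → ℕ × ℕ) → Finset (ℕ × ℕ → ℕ) := fun a =>
    ((Sc k β (M a.1) B (endsOf a.2.1 ∪ endsOf a.2.2) Y (FF γ R m a.1)).filter
      (Valid (M a.1) (2 * h) n)).biUnion fun σ =>
        (Om R m n).filter fun r => ∀ i, ev (ZZ γ M h l m r) (σ i).2 = 1
  have h1 : ∀ a ∈ Finset.range (m + 1) ×ˢ Arcs k n ×ˢ Arcs k n,
      (Bad a).card * 2 ^ β ≤ (Om R m n).card := by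
    intro a ha
    have hδ : a.1 ≤ m := Nat.lt_succ_iff.mp (Finset.mem_range.mp (Finset.mem_product.mp ha).1)
    obtain ⟨f, hf, hQ⟩ := hR a.1 hδ
    have c1 : (endsOf a.2.1 ∪ endsOf a.2.2).card ≤ 4 * k := by
      have := card_endsOf a.2.1
      have := card_endsOf a.2.2
      exact (Finset.card_union_le _ _).trans (by omega)
    have c2 := card_Sc k β (M a.1) B (endsOf a.2.1 ∪ endsOf a.2.2) Y (FF γ R m a.1) (N := N)
      ((card_Nset _ _ _).trans (le_trans (by gcongr) hN)) hf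
    set Q := N * (N * (N * (Y.card * f * (f * Y.card)))) ^ k
    have c3 : (Bad a).card * R a.1 ^ β ≤ Q ^ β * (Om R m n).card := by
      refine le_trans (Nat.mul_le_mul_right _ Finset.card_biUnion_le) ?_
      rw [Finset.sum_mul]
      refine (Finset.sum_le_card_nsmul _ _ (Om R m n).card fun σ hσ =>
        P.bad_one hγ hδ (Finset.mem_filter.mp hσ).2).trans ?_
      rw [smul_eq_mul]
      exact Nat.mul_le_mul_right _ ((Finset.card_filter_le _ _).trans c2)
    refine Nat.le_of_mul_le_mul_right (c := (Q + 1) ^ β) ?_ (by positivity)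
    calc (Bad a).card * 2 ^ β * (Q + 1) ^ β = (Bad a).card * (2 * (Q + 1)) ^ β := by
          rw [mul_pow, mul_assoc]
      _ ≤ (Bad a).card * R a.1 ^ β := by gcongr
      _ ≤ Q ^ β * (Om R m n).card := c3
      _ ≤ (Q + 1) ^ β * (Om R m n).card := by gcongr; omega
      _ = _ := mul_comm _ _
  have h2 : Om R m n ⊆ (Finset.range (m + 1) ×ˢ Arcs k n ×ˢ Arcs k n).biUnion Bad := by
    intro r hr
    obtain ⟨W, δ, hδ, Mp, hw⟩ := hW r (mem_Om.mp hr).1
    obtain ⟨a, ha, σ, s1, s2, s3⟩ := P.coarse (mem_Om.mp hr).1 hδ W hB hw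
    exact Finset.mem_biUnion.mpr ⟨(δ, a), Finset.mem_product.mpr
      ⟨Finset.mem_range.mpr (by simp only; omega), ha⟩, Finset.mem_biUnion.mpr
        ⟨σ, Finset.mem_filter.mpr ⟨s1, s2⟩, Finset.mem_filter.mpr ⟨hr, s3⟩⟩⟩
  have h3 : 0 < (Om R m n).card :=
    Finset.card_pos.mpr ⟨fun _ => 0, mem_Om.mpr ⟨fun q => hR0 _, fun _ _ => rfl⟩⟩
  have h4 := Nat.mul_le_mul_right (2 ^ β) ((Finset.card_le_card h2).trans Finset.card_biUnion_le)
  rw [Finset.sum_mul] at h4
  have h5 := h4.trans (Finset.sum_le_card_nsmul _ _ _ h1)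
  rw [smul_eq_mul, mul_comm, Finset.card_product, Finset.card_product, Arcs,
    Fintype.card_piFinset_const, Finset.card_product, Finset.card_range, Finset.card_range] at h5
  exact Nat.le_of_mul_le_mul_right h5 h3

end Pool.Agent.P.MP_f04817_lc
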