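import Pool.Agent.P.MP_f04817_lc.Nb4

/-! The choice of the parameters and the main lemma: some loop has no sweep. -/

set_option autoImplicit false

namespace Pool.Agent.P.MP_f04817_lc

open scoped Classical

/-- bounded by a polynomial -/
def Pol (f : ℕ → ℕ) : Prop := ∃ d, ∀ b, f b ≤ (b + 2) ^ d

theorem Pol.const (c : ℕ) : Pol fun _ => c :=
  ⟨c, fun b => Nat.lt_two_pow_self.le.trans (Nat.pow_le_pow_left (by omega) c)⟩

theorem Pol.id : Pol fun b => b := ⟨1, fun b => by simp⟩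

theorem Pol.mul {f g : ℕ → ℕ} (hf : Pol f) (hg : Pol g) : Pol fun b => f b * g b := by
  obtain ⟨d, hd⟩ := hf
  obtain ⟨e, he⟩ := hg
  exact ⟨d + e, fun b => by rw [pow_add]; exact Nat.mul_le_mul (hd b) (he b)⟩

theorem Pol.add {f g : ℕ → ℕ} (hf : Pol f) (hg : Pol g) : Pol fun b => f b + g b := by
  obtain ⟨d, hd⟩ := hf
  obtain ⟨e, he⟩ := hg
  refine ⟨d + e + 1, fun b => ?_⟩
  have h1 : (b + 2) ^ d ≤ (b + 2) ^ (d + e) := Nat.pow_le_pow_right (by omega) (by omega)
  have h2 : (b + 2) ^ e ≤ (b + 2) ^ (d + e) := Nat.pow_le_pow_right (by omega) (by omega)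
  have h3 : (b + 2) ^ (d + e) * 2 ≤ (b + 2) ^ (d + e) * (b + 2) := Nat.mul_le_mul_left _ (by omega)
  have := hd b
  have := he b
  rw [pow_succ]
  simp only
  omega

theorem Pol.pow {f : ℕ → ℕ} (hf : Pol f) (k : ℕ) : Pol fun b => f b ^ k := by
  obtain ⟨d, hd⟩ := hf
  exact ⟨d * k, fun b => by rw [pow_mul]; exact Nat.pow_le_pow_left (hd b) k⟩

theorem Pol.lt {f : ℕ → ℕ} (hf : Pol f) : ∃ b, f b < 2 ^ b := by
  obtain ⟨d, hd⟩ := hf
  obtain ⟨N, hN⟩ := Filter.eventually_atTop.mp
    ((tendsto_pow_const_div_const_pow_of_one_lt d (r := 2) one_lt_two).eventually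
      (gt_mem_nhds (show (0 : ℝ) < 1 / 4 by norm_num)))
  refine ⟨N, (hd N).trans_lt ?_⟩
  have h := hN (N + 2) (by omega)
  rw [div_lt_iff₀ (by positivity), pow_add] at h
  have : (((N + 2) ^ d : ℕ) : ℝ) < ((2 ^ N : ℕ) : ℝ) := by
    push_cast at h ⊢
    linarith
  exact_mod_cast this

/-- the range of a variable -/
def rho (k y N e : ℕ) : ℕ := 2 * (N * (N * (N * (y * (e * e) * (e * e * y)))) ^ k + 1)

/-- the bound for the number of values of the deeper components -/
def eps (k y N : ℕ) : ℕ → ℕ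
  | 0 => 1
  | s + 1 => rho k y N (eps k y N s) * eps k y N s

/-- the ratio of two periods -/
def nu (k K B L t : ℕ) : ℕ := ((2 * k + K) * ((t + 1) * L) + K + 1 + 1) * B

/-- the number of periods -/
def TT (k K B L : ℕ) : ℕ → ℕ
  | 0 => 1
  | d + 1 => TT k K B L d * nu k K B L (TT k K B L d)

/-- the periods -/
def MM (k K B L m d : ℕ) : ℕ := (∏ i ∈ Finset.Ico d m, nu k K B L (TT k K B L i)) * L

theorem rho_pos (k y N e : ℕ) : 0 < rho k y N e := by
  unfold rho
  omega

theorem eps_pos (k y N s : ℕ) : 0 < eps k y N s := by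
  induction s with
  | zero => exact Nat.one_pos
  | succ s ih => exact Nat.mul_pos (rho_pos _ _ _ _) ih

theorem eps_mono (k y N : ℕ) : Monotone (eps k y N) :=
  monotone_nat_of_le_succ fun _ => Nat.le_mul_of_pos_left _ (rho_pos _ _ _ _)

theorem card_EE {G : Type} [Group G] (γ : ℕ → G) (k y N m s d : ℕ) (h : d + s = m + 1) :
    (EE γ (fun d => rho k y N (eps k y N (m - d))) s d).card ≤ eps k y N s := by
  induction s generalizing d with
  | zero => exact (Finset.card_singleton _).le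
  | succ s ih =>
    refine (Finset.card_image₂_le _ _ _).trans ?_
    simp only [Finset.card_range, show m - d = s by omega]
    exact Nat.mul_le_mul_left _ (ih (d + 1) (by omega))

theorem MM_succ (k K B L : ℕ) {m d : ℕ} (h : d < m) :
    MM k K B L m d = nu k K B L (TT k K B L d) * MM k K B L m (d + 1) := by
  unfold MM
  rw [Finset.prod_eq_prod_Ico_succ_bot h, mul_assoc]

theorem MM_zero (k K B L : ℕ) {m d : ℕ} (h : d ≤ m) :
    MM k K B L m 0 = TT k K B L d * MM k K B L m d := by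
  induction d with
  | zero => simp [TT]
  | succ d ih => rw [ih (by omega), MM_succ k K B L (show d < m by omega), TT, mul_assoc]

theorem MM_dvd (k K B L m : ℕ) {i j : ℕ} (h : i ≤ j) : MM k K B L m j ∣ MM k K B L m i :=
  mul_dvd_mul_right (Finset.prod_dvd_prod_of_subset _ _ _ (Finset.Ico_subset_Ico_left h)) L

theorem le_MM (k K L m d : ℕ) {B : ℕ} (hB : 0 < B) : L ≤ MM k K B L m d :=
  Nat.le_mul_of_pos_left _ (Finset.prod_pos fun _ _ => Nat.mul_pos (Nat.succ_pos _) hB)

theorem card_high {M L T n : ℕ} (hn : n ≤ (T + 1) * M) :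
    ((Finset.range n).filter fun e => e % M < L).card ≤ (T + 1) * L := by
  rw [← Finset.card_range (T + 1), ← Finset.card_range L, ← Finset.card_product,
    Finset.card_range]
  refine Finset.card_le_card_of_injOn (fun e => (e / M, e % M)) (fun e he => ?_)
    fun e _ e' _ h => ?_
  · obtain ⟨h1, h2⟩ := Finset.mem_filter.mp he
    refine Finset.mem_product.mpr ⟨Finset.mem_range.mpr ?_, Finset.mem_range.mpr h2⟩
    rw [mul_comm] at hn
    exact Nat.div_lt_of_lt_mul ((Finset.mem_range.mp h1).trans_le hn)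
  · obtain ⟨h1, h2⟩ := Prod.mk.inj h
    rw [← Nat.div_add_mod e M, ← Nat.div_add_mod e' M, h1, h2]

theorem noWin {G : Type} [Group G] {k K : ℕ} {Y : Finset G} {z : ℕ → G} {B h : ℕ} (hB : K < B)
    (h0 : 0 < h) (W : Sweep k K Y z (MM k K B (2 * h) (2 * k + 2) 0 + h)) :
    ∃ δ ≤ 2 * k + 2, ∃ Mp, W.NoWin Mp (MM k K B (2 * h) (2 * k + 2) δ) (2 * h) B := by
  by_contra hn
  have hM := fun d => le_MM k K (2 * h) (2 * k + 2) d (show 0 < B by omega)
  have hB' : ∀ d, MM k K B (2 * h) (2 * k + 2) d ≤ B * MM k K B (2 * h) (2 * k + 2) d :=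
    fun d => Nat.le_mul_of_pos_left _ (by omega)
  have hB'' : ∀ d, B ≤ B * MM k K B (2 * h) (2 * k + 2) d :=
    fun d => Nat.le_mul_of_pos_right _ (by have := hM d; omega)
  have hc : ∀ d ≤ 2 * k + 2, (2 * k + K) * ((Finset.range (MM k K B (2 * h) (2 * k + 2) 0 + h)).filter
      fun e => e % MM k K B (2 * h) (2 * k + 2) d < 2 * h).card ≤
      (2 * k + K) * ((TT k K B (2 * h) d + 1) * (2 * h)) := fun d hd =>
    Nat.mul_le_mul_left _ (card_high (by
      have := hM d
      rw [MM_zero k K B (2 * h) hd, add_mul]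
      omega))
  have key : ∀ d ≤ 2 * k + 1, W.Claim (MM k K B (2 * h) (2 * k + 2)) (2 * h) B d := by
    intro d
    induction d with
    | zero =>
      intro _
      refine W.base _ _ B ((2 * k + K) * ((TT k K B (2 * h) 0 + 1) * (2 * h)) + K + 1 + 1)
        (by have := hB'' 1; omega) ?_ (by have := hc 0 (by omega); omega)
      rw [MM_succ k K B (2 * h) (show 0 < 2 * k + 2 by omega), nu, mul_assoc]
      exact Nat.le_add_right _ _
    | succ d ih =>
      intro hd
      refine (W.step _ _ B ((2 * k + K) * ((TT k K B (2 * h) (d + 1) + 1) * (2 * h)) + K + 1) d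
        (fun j hj => MM_dvd _ _ _ _ _ hj) (MM_dvd _ _ _ _ _ (by omega))
        ((hM _).trans (hB' _)) (hB.trans_le (hB'' _)) ?_
        (by have := hc (d + 1) (by omega); omega) (ih (by omega))).resolve_right
        fun h => hn ⟨d + 1, by omega, _, h⟩
      rw [MM_succ k K B (2 * h) (show d + 1 < 2 * k + 2 by omega), nu, mul_assoc]
  have := W.top _ _ B (2 * k + 1) (fun i j hij _ => MM_dvd _ _ _ _ _ hij) (hM _) (key _ le_rfl)
  omega

theorem pol_eps (k y : ℕ) {N : ℕ → ℕ} (hN : Pol N) (s : ℕ) : Pol fun b => eps k y (N b) s := by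
  induction s with
  | zero => exact Pol.const 1
  | succ s ih =>
    exact ((Pol.const 2).mul ((hN.mul ((hN.mul (hN.mul (((Pol.const y).mul (ih.mul ih)).mul
      ((ih.mul ih).mul (Pol.const y))))).pow k)).add (Pol.const 1))).mul ih

theorem pol_TT (k K : ℕ) {B L : ℕ → ℕ} (hB : Pol B) (hL : Pol L) (d : ℕ) :
    Pol fun b => TT k K (B b) (L b) d := by
  induction d with
  | zero => exact Pol.const 1
  | succ d ih =>
    exact ih.mul ((((((Pol.const (2 * k + K)).mul ((ih.add (Pol.const 1)).mul hL)).add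
      (Pol.const K)).add (Pol.const 1)).add (Pol.const 1)).mul hB)

theorem noSweep : S_NoSweep := by
  intro G _ _ S h1 hS hcl k K Y
  let B : ℕ → ℕ := fun b => 4 * k * (2 * k * b + 4 * k) + 4 * k + K + 1
  let N : ℕ → ℕ := fun b => 1 + 4 * k + 4 * k * (B b + 1)
  let h : ℕ → ℕ := fun b => (2 * k + 2 + 1) * eps k Y.card (N b) (2 * k + 2 + 1)
  let n : ℕ → ℕ := fun b => TT k K (B b) (2 * h b) (2 * k + 2) * (2 * h b) + h b
  have pB : Pol B := ((((Pol.const (4 * k)).mul (((Pol.const (2 * k)).mul Pol.id).add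
    (Pol.const (4 * k)))).add (Pol.const (4 * k))).add (Pol.const K)).add (Pol.const 1)
  have pN : Pol N := (Pol.const (1 + 4 * k)).add ((Pol.const (4 * k)).mul (pB.add (Pol.const 1)))
  have ph : Pol h := (Pol.const _).mul (pol_eps k Y.card pN _)
  have pL : Pol fun b => 2 * h b := (Pol.const 2).mul ph
  have pn : Pol fun b => n b + 1 :=
    (((pol_TT k K pB pL (2 * k + 2)).mul pL).add ph).add (Pol.const 1)
  obtain ⟨β, hβ⟩ := ((Pol.const (2 * k + 2 + 1)).mul
    (((pn.mul pn).pow k).mul ((pn.mul pn).pow k))).lt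
  obtain ⟨γ, g0, g1, g2⟩ := exists_path S h1 hcl (eps k Y.card (N β) (2 * k + 2 + 1))
  have hn : MM k K (B β) (2 * h β) (2 * k + 2) 0 + h β = n β := by
    rw [MM_zero k K (B β) (2 * h β) le_rfl]
    simp [MM, n]
  have P : Par (MM k K (B β) (2 * h β) (2 * k + 2))
      (fun d => rho k Y.card (N β) (eps k Y.card (N β) (2 * k + 2 - d))) (h β)
      (eps k Y.card (N β) (2 * k + 2 + 1)) (2 * k + 2) :=
    ⟨fun i j hij => MM_dvd _ _ _ _ _ hij, fun d => le_MM _ _ _ _ _ (Nat.succ_pos _), rfl,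
      eps_pos _ _ _ _, fun d hd => le_trans (Nat.le_mul_of_pos_right _ (eps_pos _ _ _ _))
        (eps_mono k Y.card (N β) (show 2 * k + 2 - d + 1 ≤ 2 * k + 2 + 1 by omega))⟩
  by_contra hc
  push Not at hc
  refine absurd (P.union (γ := γ) g2 (n := n β) (k := k) (K := K) (β := β) (B := B β) (N := N β)
    (Y := Y) (fun _ => rho_pos _ _ _ _) (by simp only [B]; omega) le_rfl (fun δ hδ => ?_)
    fun r hr => ?_) (not_le.mpr hβ)
  · have := card_EE γ k Y.card (N β) (2 * k + 2) (2 * k + 2 - δ) (δ + 1) (by omega)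
    exact ⟨_, (Finset.card_image₂_le _ _ _).trans (Nat.mul_le_mul this this), le_rfl⟩
  · rw [← hn]
    obtain ⟨W⟩ := hc _ _ (P.loop hr h1 hS g0 g1)
    exact ⟨W, noWin (by simp only [B]; omega) P.h0 W⟩

end Pool.Agent.P.MP_f04817_lc
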