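import Mathlib

/-! Sweeps of a closed path in a group by a bounded number of growing arcs. -/

set_option autoImplicit false

namespace Pool.Agent.P.MP_f04817_lc

variable {G : Type} [Group G]

/-- an entry: left end, right end of an arc of the path and two short group elements -/
abbrev Ent (G : Type) : Type := ℕ × ℕ × G × G

/-- the value of an entry along the path `z` -/
def Ent.val (z : ℕ → G) (q : Ent G) : G := q.2.2.1 * (z q.1)⁻¹ * z q.2.1 * q.2.2.2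

/-- the product of the values of the entries -/
def ev {k : ℕ} (z : ℕ → G) (s : Fin k → Ent G) : G := (List.ofFn fun i => Ent.val z (s i)).prod

/-- the edge from `e` to `e + 1` lies in an arc -/
def cov {k : ℕ} (s : Fin k → Ent G) (e : ℕ) : Prop := ∃ i, (s i).1 ≤ e ∧ e < (s i).2.1

/-- a sweep of the path `z 0, ..., z n` by at most `k` arcs -/
structure Sweep (k K : ℕ) (Y : Finset G) (z : ℕ → G) (n : ℕ) where
  T : ℕ
  st : ℕ → Fin k → Ent G
  le : ∀ t ≤ T, ∀ i, (st t i).1 ≤ (st t i).2.1 ∧ (st t i).2.1 ≤ n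
  mem : ∀ t ≤ T, ∀ i, (st t i).2.2.1 ∈ Y ∧ (st t i).2.2.2 ∈ Y
  disj : ∀ t ≤ T, ∀ i j, i ≠ j → (st t i).1 < (st t i).2.1 → (st t j).1 < (st t j).2.1 →
    (st t i).2.1 < (st t j).1 ∨ (st t j).2.1 < (st t i).1
  eqn : ∀ t ≤ T, ev z (st t) = 1
  mono : ∀ t < T, ∀ e, cov (st t) e → cov (st (t + 1)) e
  grow : ∀ t < T, ∃ A : Finset ℕ, A.card ≤ K ∧ ∀ e, cov (st (t + 1)) e → cov (st t) e ∨ e ∈ A
  init : ∀ e, ¬ cov (st 0) e
  fin : ∃ A : Finset ℕ, A.card ≤ K ∧ ∀ e < n, cov (st T) e ∨ e ∈ A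

/-- `z` is a closed path of length `n` with steps in `S` -/
def Loop (S : Set G) (z : ℕ → G) (n : ℕ) : Prop :=
  z 0 = 1 ∧ z n = 1 ∧ ∀ i < n, (z i)⁻¹ * z (i + 1) ∈ S

/-- the main lemma: in an infinite group some loop has no sweep -/
def S_NoSweep : Prop :=
  ∀ (G : Type) [Group G] [Infinite G] (S : Finset G), 1 ∈ S → (∀ x ∈ S, x⁻¹ ∈ S) →
    Submonoid.closure (S : Set G) = ⊤ → ∀ (k K : ℕ) (Y : Finset G),
    ∃ (z : ℕ → G) (n : ℕ), Loop (S : Set G) z n ∧ IsEmpty (Sweep k K Y z n)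

end Pool.Agent.P.MP_f04817_lc
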