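import Pool.Agent.P.MP_f04817_lc.Sw

/-! Sentential forms of a derivation of a marked word give the stages of a sweep. -/

set_option autoImplicit false

namespace Pool.Agent.P.MP_f04817_lc.SwA

open scoped Pointwise

/-- an endomorphism of the monoid of lists -/
def LHom {V : Type} (f : List V → List V) : Prop := f [] = [] ∧ ∀ a b, f (a ++ b) = f a ++ f b

/-- apply the tables of a list, the last one first -/
def app {V : Type} (l : List (List V → List V)) (u : List V) : List V :=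
  l.foldr (fun h u => h u) u

theorem app_append {V : Type} (l l' : List (List V → List V)) (u : List V) :
    app (l ++ l') u = app l (app l' u) := List.foldr_append

theorem LHom.app {V : Type} {l : List (List V → List V)} (hl : ∀ h ∈ l, LHom h) :
    LHom (app l) := by
  induction l with
  | nil => exact ⟨rfl, fun _ _ => rfl⟩
  | cons h l ih =>
    have h1 := hl h List.mem_cons_self
    have h2 := ih fun g hg => hl g (List.mem_cons_of_mem _ hg)
    refine ⟨?_, fun a b => ?_⟩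
    · show h (SwA.app l []) = []
      rw [h2.1, h1.1]
    · show h (SwA.app l (a ++ b)) =
        h (SwA.app l a) ++ h (SwA.app l b)
      rw [h2.2, h1.2]

/-- the position of the `i`-th cut -/
def cut {V : Type} (ψ : List V → List V) (u : List V) (i : ℕ) : ℕ := (ψ (u.take i)).length

section Cut

variable {V : Type} {ψ : List V → List V} (hψ : LHom ψ) (u : List V)
include hψ

theorem cut_zero : cut ψ u 0 = 0 := by simp [cut, hψ.1]

omit hψ in
theorem cut_len : cut ψ u u.length = (ψ u).length := by simp [cut]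

theorem cut_succ {i : ℕ} (hi : i < u.length) :
    cut ψ u (i + 1) = cut ψ u i + (ψ [u[i]]).length := by
  rw [cut, cut, List.take_succ_eq_append_getElem hi, hψ.2, List.length_append]

theorem cut_mono : Monotone (cut ψ u) := by
  refine monotone_nat_of_le_succ fun i => ?_
  by_cases hi : i < u.length
  · rw [cut_succ hψ u hi]; omega
  · rw [cut, cut, List.take_of_length_le (by omega), List.take_of_length_le (by omega)]

theorem cut_le (i : ℕ) : cut ψ u i ≤ (ψ u).length := by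
  conv_rhs => rw [← List.take_append_drop i u, hψ.2, List.length_append]
  exact Nat.le_add_right _ _

theorem cut_get {i : ℕ} (hi : i < u.length) {o : ℕ} (ho : o < (ψ [u[i]]).length) :
    (ψ [u[i]])[o]? = (ψ u)[cut ψ u i + o]? := by
  have e : ψ u = ψ (u.take i) ++ (ψ [u[i]] ++ ψ (u.drop (i + 1))) := by
    rw [← hψ.2, ← hψ.2, List.singleton_append, ← List.drop_eq_getElem_cons hi,
      List.take_append_drop]
  rw [e, cut, List.getElem?_append_right (by omega), Nat.add_sub_cancel_left,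
    List.getElem?_append_left ho]

omit hψ in
theorem cut_comp {h : List V → List V} (hh : LHom h) (i : ℕ) :
    cut (fun v => ψ (h v)) u i = cut ψ (h u) (cut h u i) := by
  have e : h u = h (u.take i) ++ h (u.drop i) := by rw [← hh.2, List.take_append_drop]
  simp only [cut]
  rw [e, List.take_left']
  rfl

theorem mem_hom {a : V} (ha : a ∈ ψ u) : ∃ v ∈ u, a ∈ ψ [v] := by
  induction u with
  | nil => simp [hψ.1] at ha
  | cons v u ih =>
    rw [← List.singleton_append, hψ.2, List.mem_append] at ha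
    rcases ha with ha | ha
    · exact ⟨v, List.mem_cons_self, ha⟩
    · obtain ⟨v', h1, h2⟩ := ih ha
      exact ⟨v', List.mem_cons_of_mem _ h1, h2⟩

theorem prod_hom {G : Type} [Group G] (f : V → G) :
    ((ψ u).map f).prod = (u.map fun v => ((ψ [v]).map f).prod).prod := by
  induction u with
  | nil => simp [hψ.1]
  | cons v u ih =>
    rw [← List.singleton_append, hψ.2, List.map_append, List.prod_append, ih]
    simp

end Cut

theorem ivt (f : ℕ → ℕ) {s t e : ℕ} (hst : s ≤ t) (h1 : f s ≤ e) (h2 : e < f t) :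
    ∃ j, s ≤ j ∧ j < t ∧ f j ≤ e ∧ e < f (j + 1) := by
  induction t, hst using Nat.le_induction with
  | base => omega
  | succ t hst ih =>
    by_cases h : e < f t
    · obtain ⟨j, a, b, c⟩ := ih h
      exact ⟨j, a, by omega, c⟩
    · exact ⟨t, hst, by omega, by omega, h2⟩

theorem prod_pad {G : Type} [Group G] (l : List G) (M : ℕ) (h : l.length ≤ M) :
    (List.ofFn fun j : Fin M => l.getD j 1).prod = l.prod := by
  induction M generalizing l with
  | zero => simp [List.length_eq_zero_iff.1 (Nat.le_zero.1 h)]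
  | succ M ih =>
    rw [List.ofFn_succ, List.prod_cons]
    cases l with
    | nil => simp
    | cons a l => simpa using ih l (by simpa using h)

/-- a word `W 0 ... W (ν - 1)` that follows the loop `z` and has no repeated long factor -/
structure Marked {G A : Type} [Group G] (π : A → G) (S : Finset G) (z : ℕ → G) (n : ℕ)
    (W : ℕ → A) (ν : ℕ) (p : ℕ → G) (κ : ℕ → ℕ) : Prop where
  p0 : p 0 = 1
  ps : ∀ y, p (y + 1) = p y * π (W y)
  pe : p ν = 1
  mono : Monotone κ
  ke : κ ν = n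
  k0 : κ 0 = 0
  ks : ∀ y, κ (y + 1) ≤ κ y + 1
  near : ∀ y ≤ ν, (z (κ y))⁻¹ * p y ∈ S
  uniq : ∀ a a' m, κ a + 2 ≤ κ (a + m) → (∀ o < m, W (a + o) = W (a' + o)) → a = a'

/-- an edge lies inside the yield of one letter -/
def CovU {V : Type} (κ : ℕ → ℕ) (ψ : List V → List V) (u : List V) (e : ℕ) : Prop :=
  ∃ i < u.length, κ (cut ψ u i) < e ∧ e < κ (cut ψ u (i + 1))

/-- a letter whose yield contains an edge -/
def Big {V : Type} (κ : ℕ → ℕ) (ψ : List V → List V) (u : List V) (v : V) : Prop :=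
  ∃ i, ∃ hi : i < u.length, u[i] = v ∧ κ (cut ψ u i) + 2 ≤ κ (cut ψ u (i + 1))

/-- the entry of the factor between the positions `a` and `b` -/
def ent {G : Type} [Group G] (z p : ℕ → G) (κ : ℕ → ℕ) (a b : ℕ) : Ent G :=
  if κ a + 2 ≤ κ b then (κ a + 1, κ b, (p a)⁻¹ * z (κ a + 1), (z (κ b))⁻¹ * p b)
  else (0, 0, (p a)⁻¹ * p b, 1)

theorem ent_val {G : Type} [Group G] (z p : ℕ → G) (κ : ℕ → ℕ) (a b : ℕ) :
    Ent.val z (ent z p κ a b) = (p a)⁻¹ * p b := by
  unfold ent
  split_ifs <;> simp [Ent.val, mul_assoc]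

/-- the conditions on one stage of a sweep -/
structure StOK {G : Type} [Group G] (Y : Finset G) (z : ℕ → G) (n : ℕ) {k : ℕ}
    (s : Fin k → Ent G) : Prop where
  le : ∀ i, (s i).1 ≤ (s i).2.1 ∧ (s i).2.1 ≤ n
  mem : ∀ i, (s i).2.2.1 ∈ Y ∧ (s i).2.2.2 ∈ Y
  disj : ∀ i j, i ≠ j → (s i).1 < (s i).2.1 → (s j).1 < (s j).2.1 →
    (s i).2.1 < (s j).1 ∨ (s j).2.1 < (s i).1
  eqn : ev z s = 1

section Stage

variable {G A V : Type} [Group G] {π : A → G} {S : Finset G} {z : ℕ → G} {n : ℕ} {W : ℕ → A}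
  {ν : ℕ} {p : ℕ → G} {κ : ℕ → ℕ} (hM : Marked π S z n W ν p κ) {ι : A → V}
  (hι : Function.Injective ι) {ψ : List V → List V} (hψ : LHom ψ) {u : List V}
  (hu : ψ u = (List.range ν).map fun y => ι (W y))

include hψ hu in
theorem cut_le' (i : ℕ) : cut ψ u i ≤ ν := by
  simpa [hu] using cut_le hψ u i

include hψ hu in
theorem yield_get {i : ℕ} (hi : i < u.length) {o : ℕ} (ho : o < (ψ [u[i]]).length) :
    (ψ [u[i]])[o]? = some (ι (W (cut ψ u i + o))) := by
  have h1 := cut_le' hψ hu (i + 1)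
  rw [cut_succ hψ u hi] at h1
  rw [cut_get hψ u hi ho, hu, List.getElem?_map, List.getElem?_range (by omega)]
  rfl

include hM hι hψ hu in
theorem idx_uniq {i j : ℕ} (hi : i < u.length) (hj : j < u.length) (e : u[i] = u[j])
    (hb : κ (cut ψ u i) + 2 ≤ κ (cut ψ u (i + 1))) : i = j := by
  have h1 := cut_succ hψ u hi
  have h2 := cut_succ hψ u hj
  have h3 : cut ψ u i = cut ψ u j := by
    refine hM.uniq _ _ (ψ [u[i]]).length (h1 ▸ hb) fun o ho => hι (Option.some_injective _ ?_)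
    rw [← yield_get hψ hu hi ho, ← yield_get hψ hu hj (e ▸ ho), e]
  have h4 : (ψ [u[i]]).length ≠ 0 := fun h => by rw [h1, h, add_zero] at hb; omega
  rw [← e] at h2
  rcases lt_trichotomy i j with h | h | h
  · have := cut_mono hψ u (show i + 1 ≤ j from h); omega
  · exact h
  · have := cut_mono hψ u (show j + 1 ≤ i from h); omega

include hM hψ hu in
theorem yield_val {π' : V → G} (hπ : ∀ a, π' (ι a) = π a) {i : ℕ} (hi : i < u.length) :
    ((ψ [u[i]]).map π').prod = (p (cut ψ u i))⁻¹ * p (cut ψ u (i + 1)) := by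
  have key : ∀ m ≤ (ψ [u[i]]).length, (((ψ [u[i]]).take m).map π').prod =
      (p (cut ψ u i))⁻¹ * p (cut ψ u i + m) := by
    intro m hm
    induction m with
    | zero => simp
    | succ m ih =>
      have h1 := yield_get hψ hu hi (o := m) hm
      rw [List.getElem?_eq_getElem hm, Option.some_inj] at h1
      rw [List.take_succ_eq_append_getElem hm, List.map_append, List.prod_append, ih (by omega),
        h1, ← add_assoc, hM.ps]
      simp [hπ, mul_assoc]
  have := key _ le_rfl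
  rwa [List.take_length, ← cut_succ hψ u hi] at this

include hM hι hψ hu in
theorem big_pairwise : u.Pairwise fun a b => Big κ ψ u a → a ≠ b := by
  rw [List.pairwise_iff_getElem]
  rintro i j hi hj hij ⟨i', hi', e, hb⟩ e'
  have h1 := idx_uniq hM hι hψ hu hi' hi e hb
  have h2 := idx_uniq hM hι hψ hu hi' hj (e.trans e') hb
  omega

include hM in
theorem ent_ok (hz : Loop (S : Set G) z n) (h1 : 1 ∈ S) (hS : ∀ g ∈ S, g⁻¹ ∈ S) [DecidableEq G]
    {a b : ℕ} (hab : a ≤ b) (hb : b ≤ ν) :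
    (ent z p κ a b).1 ≤ (ent z p κ a b).2.1 ∧ (ent z p κ a b).2.1 ≤ n ∧
      (ent z p κ a b).2.2.1 ∈ S * S * S ∧ (ent z p κ a b).2.2.2 ∈ S * S * S := by
  have k1 : κ b ≤ n := hM.ke ▸ hM.mono hb
  have k2 := hM.mono hab
  have na := hS _ (hM.near a (hab.trans hb))
  have nb := hM.near b hb
  have m3 : ∀ {x y w g : G}, x ∈ S → y ∈ S → w ∈ S → g = x * y * w → g ∈ S * S * S :=
    fun hx hy hw e => e ▸ Finset.mul_mem_mul (Finset.mul_mem_mul hx hy) hw
  unfold ent
  split_ifs with h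
  · exact ⟨by simp only; omega, k1, m3 na (hz.2.2 (κ a) (by omega)) h1 (by simp only; group),
      m3 nb h1 h1 (by simp)⟩
  · refine ⟨le_rfl, Nat.zero_le _, ?_, m3 h1 h1 h1 (by simp)⟩
    rcases (by omega : κ b = κ a ∨ κ b = κ a + 1) with e | e
    · exact m3 na h1 nb (by rw [e]; simp only; group)
    · exact m3 na (hz.2.2 (κ a) (by omega)) nb (by rw [e]; simp only; group)

include hM hι hψ hu in
theorem stage (hz : Loop (S : Set G) z n) (h1 : 1 ∈ S) (hS : ∀ g ∈ S, g⁻¹ ∈ S) [DecidableEq G]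
    {π' : V → G} (hπ : ∀ a, π' (ι a) = π a) {u' : List V} (s1 : ∀ v ∈ u', v ∈ u)
    (s2 : ∀ v, Big κ ψ u v → v ∈ u') (s3 : u'.Pairwise fun a b => Big κ ψ u a → a ≠ b)
    (s4 : ((ψ u').map π').prod = 1) {k : ℕ} (hk : u'.length ≤ k) :
    ∃ s : Fin k → Ent G, StOK (S * S * S) z n s ∧ ∀ e, cov s e ↔ CovU κ ψ u e := by
  have hI : ∀ v, ∃ i, v ∈ u → ∃ hi : i < u.length, u[i] = v := fun v => by
    by_cases hv : v ∈ u
    · obtain ⟨i, hi, e⟩ := List.getElem_of_mem hv
      exact ⟨i, fun _ => ⟨hi, e⟩⟩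
    · exact ⟨0, fun h => absurd h hv⟩
  choose I hI using hI
  let E : V → Ent G := fun v => ent z p κ (cut ψ u (I v)) (cut ψ u (I v + 1))
  have hs : ∀ j : ℕ, (∃ hj : j < u'.length, (u'.map E).getD j (0, 0, 1, 1) = E u'[j]) ∨
      (u'.map E).getD j (0, 0, 1, 1) = (0, 0, 1, 1) := fun j => by
    by_cases hj : j < u'.length
    · exact Or.inl ⟨hj, by simp [List.getD, hj]⟩
    · exact Or.inr (List.getD_eq_default _ _ (by simpa using hj))
  have ok : ∀ v, _ := fun v => ent_ok hM hz h1 hS (cut_mono hψ u (Nat.le_succ (I v)))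
    (cut_le' hψ hu (I v + 1))
  have one : (1 : G) ∈ S * S * S := by
    simpa using Finset.mul_mem_mul (Finset.mul_mem_mul h1 h1) h1
  have hE : ∀ v, (E v).1 < (E v).2.1 → κ (cut ψ u (I v)) + 2 ≤ κ (cut ψ u (I v + 1)) ∧
      (E v).1 = κ (cut ψ u (I v)) + 1 ∧ (E v).2.1 = κ (cut ψ u (I v + 1)) := fun v hv => by
    simp only [E, ent] at hv ⊢
    split_ifs at hv ⊢ with h
    · exact ⟨h, rfl, rfl⟩
    · exact absurd hv (lt_irrefl _)
  refine ⟨fun j => (u'.map E).getD j (0, 0, 1, 1), ⟨fun j => ?_, fun j => ?_, ?_, ?_⟩, ?_⟩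
  · rcases hs j with ⟨hj, e⟩ | e <;> rw [e]
    exacts [⟨(ok _).1, (ok _).2.1⟩, ⟨le_rfl, Nat.zero_le _⟩]
  · rcases hs j with ⟨hj, e⟩ | e <;> rw [e]
    exacts [(ok _).2.2, ⟨one, one⟩]
  · intro i j hij
    rcases hs i with ⟨hi, e⟩ | e <;> rw [e]
    swap
    · exact fun h => absurd h (lt_irrefl _)
    rcases hs j with ⟨hj, e'⟩ | e' <;> rw [e']
    swap
    · exact fun _ h => absurd h (lt_irrefl _)
    intro a b
    obtain ⟨a1, a2, a3⟩ := hE _ a
    obtain ⟨b1, b2, b3⟩ := hE _ b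
    obtain ⟨ha, ea⟩ := hI _ (s1 _ (List.getElem_mem hi))
    obtain ⟨hb, eb⟩ := hI _ (s1 _ (List.getElem_mem hj))
    have ne : u'[(i : ℕ)] ≠ u'[(j : ℕ)] := by
      rw [List.pairwise_iff_getElem] at s3
      rcases lt_or_gt_of_ne (Fin.val_ne_of_ne hij) with h | h
      · exact s3 _ _ hi hj h ⟨_, ha, ea, a1⟩
      · exact (s3 _ _ hj hi h ⟨_, hb, eb, b1⟩).symm
    have ne' : I u'[(i : ℕ)] ≠ I u'[(j : ℕ)] := fun h => ne (by
      rw [← ea, ← eb]; simp only [h])
    rw [a2, a3, b2, b3]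
    rcases lt_or_gt_of_ne ne' with h | h
    · have := hM.mono (cut_mono hψ u (show _ + 1 ≤ _ from h)); omega
    · have := hM.mono (cut_mono hψ u (show _ + 1 ≤ _ from h)); omega
  · have e1 : ∀ j : Fin k, Ent.val z ((u'.map E).getD j (0, 0, 1, 1)) =
        ((u'.map E).map (Ent.val z)).getD j 1 := fun j => by
      rw [← List.getD_map (f := Ent.val z)]
      simp [Ent.val]
    simp only [ev, e1]
    rw [prod_pad _ _ (by simpa using hk), ← s4, prod_hom hψ, List.map_map]
    congr 1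
    refine List.map_congr_left fun v hv => ?_
    obtain ⟨ha, ea⟩ := hI _ (s1 _ hv)
    have := yield_val hM hψ hu hπ ha
    rw [ea] at this
    rw [this]
    exact ent_val _ _ _ _ _
  · intro e
    constructor
    · rintro ⟨j, a, b⟩
      rcases hs j with ⟨hj, e'⟩ | e' <;> simp only [e'] at a b
      · obtain ⟨a1, a2, a3⟩ := hE _ (a.trans_lt b)
        exact ⟨_, (hI _ (s1 _ (List.getElem_mem hj))).1, by omega, by omega⟩
      · omega
    · rintro ⟨i, hi, a, b⟩
      have hb : κ (cut ψ u i) + 2 ≤ κ (cut ψ u (i + 1)) := by omega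
      obtain ⟨j, hj, ej⟩ := List.getElem_of_mem (s2 _ ⟨i, hi, rfl, hb⟩)
      obtain ⟨ha, ea⟩ := hI _ (List.getElem_mem hi)
      have ei := idx_uniq hM hι hψ hu hi ha ea.symm hb
      refine ⟨⟨j, by omega⟩, ?_⟩
      have e' : (u'.map E).getD j (0, 0, 1, 1) = E u[i] := by simp [List.getD, hj, ej]
      have e'' : E u[i] = ent z p κ (cut ψ u i) (cut ψ u (i + 1)) := by
        show ent z p κ (cut ψ u (I u[i])) (cut ψ u (I u[i] + 1)) = _
        rw [← ei]
      simp only [e', e'', ent, if_pos hb]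
      omega

end Stage

section Step

variable {V : Type} {κ : ℕ → ℕ} (hκ : Monotone κ) {ψ h : List V → List V} (hψ : LHom ψ)
  (hh : LHom h) (u : List V)

include hκ hψ hh in
theorem covU_mono {e : ℕ} (he : CovU κ ψ (h u) e) : CovU κ (fun v => ψ (h v)) u e := by
  obtain ⟨j, hj, a, b⟩ := he
  obtain ⟨i, -, hi, c, d⟩ := ivt (cut h u) (Nat.zero_le u.length) (e := j)
    (by rw [cut_zero hh]; omega) (by rwa [cut_len])
  refine ⟨i, hi, ?_, ?_⟩ <;> rw [cut_comp u hh]
  · exact (hκ (cut_mono hψ _ c)).trans_lt a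
  · exact b.trans_le (hκ (cut_mono hψ _ d))

theorem cov_or (ψ : List V → List V) (u : List V) {s t e : ℕ} (hst : s ≤ t) (ht : t ≤ u.length)
    (h1 : κ (cut ψ u s) ≤ e) (h2 : e < κ (cut ψ u t)) :
    CovU κ ψ u e ∨ ∃ j, s ≤ j ∧ j < t ∧ κ (cut ψ u j) = e := by
  obtain ⟨j, a, b, c, d⟩ := ivt (fun j => κ (cut ψ u j)) hst h1 h2
  rcases c.lt_or_eq with c | c
  · exact Or.inl ⟨j, by omega, c, d⟩
  · exact Or.inr ⟨j, a, b, c⟩

include hh in
theorem covU_grow [Fintype V] {K : ℕ} (hK : ∀ v, (h [v]).length ≤ K)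
    (hu : ∀ i j, ∀ hi : i < u.length, ∀ hj : j < u.length, u[i] = u[j] →
      κ (cut (fun v => ψ (h v)) u i) + 2 ≤ κ (cut (fun v => ψ (h v)) u (i + 1)) → i = j) :
    ∃ B : Finset ℕ, B.card ≤ Fintype.card V * K ∧
      ∀ e, CovU κ (fun v => ψ (h v)) u e → CovU κ ψ (h u) e ∨ e ∈ B := by
  have hI : ∀ v, ∃ i, v ∈ u → ∃ hi : i < u.length, u[i] = v := fun v => by
    by_cases hv : v ∈ u
    · obtain ⟨i, hi, e⟩ := List.getElem_of_mem hv
      exact ⟨i, fun _ => ⟨hi, e⟩⟩
    · exact ⟨0, fun h => absurd h hv⟩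
  choose I hI using hI
  refine ⟨(Finset.univ ×ˢ Finset.range K).image
    fun q : V × ℕ => κ (cut ψ (h u) (cut h u (I q.1) + q.2)),
    Finset.card_image_le.trans (by simp), ?_⟩
  rintro e ⟨i, hi, a, b⟩
  obtain ⟨ha, ea⟩ := hI _ (List.getElem_mem hi)
  have ei := hu _ _ hi ha ea.symm (by omega)
  rw [cut_comp u hh] at a b
  refine (cov_or ψ (h u) (cut_mono hh u (Nat.le_succ i)) (cut_le hh u _) a.le b).imp_right ?_
  rintro ⟨j, j1, j2, j3⟩
  rw [cut_succ hh u hi] at j2
  have := hK u[i]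
  refine Finset.mem_image.2 ⟨(u[i], j - cut h u i), by simp; omega, ?_⟩
  simp only
  rw [← ei, Nat.add_sub_cancel' j1, j3]

end Step

/-- the language `L` is generated by deterministic tables, in terms of lists -/
def EL {A : Type} (L : List A → Prop) : Prop :=
  ∃ (V : Type) (_ : Finite V) (ι : A → V) (ω : List V) (H : Set (List V → List V)),
    Function.Injective ι ∧ H.Finite ∧ (∀ h ∈ H, LHom h) ∧
      ∀ w, L w ↔ ∃ l, (∀ h ∈ l, h ∈ H) ∧ app l ω = w.map ι

theorem exists_bound {T α : Type} [Finite T] (P : T → List α → Prop) :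
    ∃ M, ∀ t u, P t u → ∃ u', P t u' ∧ u'.length ≤ M := by
  have h : ∀ t, ∃ m, ∀ u, P t u → ∃ u', P t u' ∧ u'.length ≤ m := fun t => by
    by_cases h : ∃ u, P t u
    · obtain ⟨u, hu⟩ := h
      exact ⟨u.length, fun _ _ => ⟨u, hu, le_rfl⟩⟩
    · exact ⟨0, fun u hu => absurd ⟨u, hu⟩ h⟩
  choose m hm using h
  obtain ⟨M, hM⟩ := (Set.finite_range m).bddAbove
  refine ⟨M, fun t u hu => ?_⟩
  obtain ⟨u', a, b⟩ := hm t u hu
  exact ⟨u', a, b.trans (hM ⟨t, rfl⟩)⟩

theorem sweep_of_marked {G A : Type} [Group G] [Nonempty A] (π : A → G) (S : Finset G)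
    (h1 : 1 ∈ S) (hS : ∀ g ∈ S, g⁻¹ ∈ S) (hE : EL fun w : List A => (w.map π).prod = 1) :
    ∃ (k K : ℕ) (Y : Finset G), ∀ (z : ℕ → G) (n : ℕ), Loop (S : Set G) z n →
      ∀ W ν p κ, Marked π S z n W ν p κ → Nonempty (Sweep k K Y z n) := by
  classical
  obtain ⟨V, _, ι, ω, H, hι, hH, hom, hL⟩ := hE
  have := Fintype.ofFinite V
  obtain ⟨k, hk⟩ := exists_bound (T := Set V × Set V) fun t u =>
    (∃ l, (∀ h ∈ l, h ∈ H) ∧ app l ω = u) ∧ (∀ v ∈ u, v ∈ t.1) ∧ (∀ v ∈ t.2, v ∈ u) ∧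
      u.Pairwise fun a b => a ∈ t.2 → a ≠ b
  obtain ⟨K, hK⟩ := ((hH.prod (Set.finite_univ (α := V))).image
    fun q => (q.1 [q.2]).length).bddAbove
  refine ⟨k, Fintype.card V * K + ω.length, S * S * S, fun z n hz W ν p κ hM => ?_⟩
  have hp : ∀ m, (((List.range m).map W).map π).prod = p m := fun m => by
    induction m with
    | zero => simp [hM.p0]
    | succ m ih =>
      rw [List.range_succ, List.map_append, List.map_append, List.prod_append, ih, hM.ps]
      simp
  obtain ⟨l, hl, hw⟩ := (hL ((List.range ν).map W)).1 ((hp ν).trans hM.pe)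
  rw [List.map_map] at hw
  have hψ : ∀ t, LHom (app (l.take t)) := fun t =>
    LHom.app fun h hh => hom h (hl h (List.mem_of_mem_take hh))
  have hu : ∀ t, app (l.take t) (app (l.drop t) ω) = (List.range ν).map fun y => ι (W y) :=
    fun t => by rw [← app_append, List.take_append_drop, hw]; rfl
  have hst : ∀ t, ∃ s : Fin k → Ent G, StOK (S * S * S) z n s ∧
      ∀ e, cov s e ↔ CovU κ (app (l.take t)) (app (l.drop t) ω) e := fun t => by
    obtain ⟨u', ⟨⟨l', hl', e'⟩, s1, s2, s3⟩, hlen⟩ := hk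
      ({v | v ∈ app (l.drop t) ω}, {v | Big κ (app (l.take t)) (app (l.drop t) ω) v})
      (app (l.drop t) ω) ⟨⟨_, fun h hh => hl h (List.mem_of_mem_drop hh), rfl⟩, fun v hv => hv,
        fun v ⟨i, hi, e, _⟩ => e ▸ List.getElem_mem hi, big_pairwise hM hι (hψ t) (hu t)⟩
    refine stage hM hι (hψ t) (hu t) hz h1 hS (π' := fun v => π (Function.invFun ι v))
      (fun a => by rw [Function.leftInverse_invFun hι a]) s1 s2 s3 ?_ hlen
    have := (hL ((app (l.take t) u').map (Function.invFun ι))).2 ⟨l.take t ++ l', fun h hh =>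
      (List.mem_append.1 hh).elim (fun hh => hl h (List.mem_of_mem_take hh)) (hl' h), ?_⟩
    · simp only [List.map_map] at this
      exact this
    rw [app_append, e', List.map_map]
    refine (List.map_id _).symm.trans (List.map_congr_left fun a ha => ?_)
    obtain ⟨v, hv, hav⟩ := mem_hom (hψ t) _ ha
    obtain ⟨i, hi, rfl⟩ := List.getElem_of_mem (show v ∈ app (l.drop t) ω from s1 v hv)
    obtain ⟨o, ho, rfl⟩ := List.getElem_of_mem hav
    have := yield_get (hψ t) (hu t) hi ho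
    rw [List.getElem?_eq_getElem ho, Option.some_inj] at this
    rw [this]
    simp [Function.leftInverse_invFun hι _]
  choose st ok hc using hst
  have e1 : ∀ t, ∀ ht : t < l.length, app (l.take (t + 1)) = fun v => app (l.take t) (l[t] v) :=
    fun t ht => funext fun v => by rw [List.take_succ_eq_append_getElem ht, app_append]; rfl
  have e2 : ∀ t, ∀ ht : t < l.length, app (l.drop t) ω = l[t] (app (l.drop (t + 1)) ω) :=
    fun t ht => by rw [List.drop_eq_getElem_cons ht]; rfl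
  refine ⟨⟨l.length, st, fun t _ => (ok t).le, fun t _ => (ok t).mem, fun t _ => (ok t).disj,
    fun t _ => (ok t).eqn, fun t ht e he => ?_, fun t ht => ?_, fun e he => ?_, ?_⟩⟩
  · rw [hc] at he ⊢
    rw [e1 t ht]
    rw [e2 t ht] at he
    exact covU_mono hM.mono (hψ t) (hom _ (hl _ (List.getElem_mem ht))) _ he
  · obtain ⟨B, hB, hB'⟩ := covU_grow (κ := κ) (ψ := app (l.take t))
      (hom _ (hl _ (List.getElem_mem ht))) (app (l.drop (t + 1)) ω) (K := K)
      (fun v => hK ⟨(l[t], v), ⟨hl _ (List.getElem_mem ht), Set.mem_univ _⟩, rfl⟩)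
      (fun i j hi hj e hb => idx_uniq hM hι (hψ (t + 1)) (hu (t + 1)) hi hj e
        (by rwa [e1 t ht]))
    refine ⟨B, by omega, fun e he => ?_⟩
    rw [hc] at he ⊢
    rw [e1 t ht] at he
    rw [e2 t ht]
    exact hB' e he
  · obtain ⟨i, hi, a, b⟩ := (hc 0 e).1 he
    rw [cut_succ (hψ 0) _ hi] at b
    have := hM.ks (cut (app (l.take 0)) (app (l.drop 0) ω) i)
    exact absurd b (not_lt.2 (this.trans a))
  · have e3 : app (l.drop l.length) ω = ω := by rw [List.drop_length]; rfl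
    refine ⟨(Finset.range ω.length).image fun j => κ (cut (app (l.take l.length)) ω j),
      Finset.card_image_le.trans (by simp), fun e he => ?_⟩
    rw [hc, e3]
    refine (cov_or _ ω (Nat.zero_le _) le_rfl (by rw [cut_zero (hψ _), hM.k0]; omega)
      ?_).imp_right fun ⟨j, _, j2, j3⟩ => Finset.mem_image.2 ⟨j, by simpa using j2, j3⟩
    have := hu l.length
    rw [e3] at this
    rw [cut_len, this]
    simpa [hM.ke] using he

end Pool.Agent.P.MP_f04817_lc.SwA
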